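import Mathlib

set_option autoImplicit false

namespace Pool.Agent.H61.Sun

open Polynomial Finset

variable {A : Type*} [CommRing A]

theorem coeff_lin (a b : A) (n k : ℕ) :
    ((C a + C b * X) ^ n).coeff k = (n.choose k : A) * a ^ (n - k) * b ^ k := by
  have h : ∀ m ∈ range (n + 1), (((C b * X) ^ m * (C a) ^ (n - m) * ((n.choose m : ℕ) : A[X]))).coeff k
      = if k = m then (n.choose k : A) * a ^ (n - k) * b ^ k else 0 := by
    intro m _
    have e : (C b * X) ^ m * (C a) ^ (n - m) * ((n.choose m : ℕ) : A[X])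
        = C ((n.choose m : A) * a ^ (n - m) * b ^ m) * X ^ m := by
      rw [mul_pow, ← C_eq_natCast, ← C_pow, ← C_pow, C_mul, C_mul]; ring
    rw [e, coeff_C_mul, coeff_X_pow]
    split_ifs with h
    · rw [h, mul_one]
    · rw [mul_zero]
  rw [add_comm, add_pow, finsetSum_coeff, sum_congr rfl h, sum_ite_eq]
  split_ifs with hk
  · rfl
  · rw [mem_range, not_lt] at hk
    rw [Nat.choose_eq_zero_of_lt (by omega)]; simp

/-- The central coefficient of a power of a quadratic polynomial. -/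
theorem coeff_tri (a b c : A) (M : ℕ) :
    ((C a + C b * X + C c * X ^ 2) ^ M).coeff M =
      ∑ i ∈ range (M + 1), (M.choose (2 * i) : A) * ((2 * i).choose i : A) * (a * c) ^ i
        * b ^ (M - 2 * i) := by
  have h1 : ∀ k : ℕ, ((C a + C c * X ^ 2) ^ k).coeff k =
      ∑ j ∈ range (k + 1), if 2 * j = k then ((2 * j).choose j : A) * (a * c) ^ j else 0 := by
    intro k
    have e : (C a + C c * X ^ 2 : A[X]) = C c * X ^ 2 + C a := by ring
    rw [e, add_pow, finsetSum_coeff]
    refine sum_congr rfl (fun j hj => ?_)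
    rw [mem_range] at hj
    have e2 : (C c * X ^ 2) ^ j * (C a) ^ (k - j) * ((k.choose j : ℕ) : A[X])
        = C ((k.choose j : A) * a ^ (k - j) * c ^ j) * X ^ (2 * j) := by
      rw [mul_pow, ← C_eq_natCast, ← C_pow, ← C_pow, C_mul, C_mul, pow_mul]; ring
    rw [e2, coeff_C_mul, coeff_X_pow]
    by_cases h : 2 * j = k
    · rw [if_pos h, if_pos h.symm, mul_one, ← h, mul_pow]
      have : 2 * j - j = j := by omega
      rw [this]; ring
    · rw [if_neg h, if_neg (fun h' => h h'.symm), mul_zero]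
  have e : (C a + C b * X + C c * X ^ 2 : A[X]) = (C a + C c * X ^ 2) + C b * X := by ring
  rw [e, add_pow, finsetSum_coeff]
  have h2 : ∀ k ∈ range (M + 1), ((C a + C c * X ^ 2) ^ k * (C b * X) ^ (M - k)
      * ((M.choose k : ℕ) : A[X])).coeff M = ∑ j ∈ range (M + 1), if 2 * j = k then
        (M.choose (2 * j) : A) * ((2 * j).choose j : A) * (a * c) ^ j * b ^ (M - 2 * j) else 0 := by
    intro k hk
    rw [mem_range] at hk
    have e2 : (C a + C c * X ^ 2) ^ k * (C b * X) ^ (M - k) * ((M.choose k : ℕ) : A[X])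
        = C ((M.choose k : A) * b ^ (M - k)) * ((C a + C c * X ^ 2) ^ k * X ^ (M - k)) := by
      rw [mul_pow, ← C_eq_natCast, ← C_pow, C_mul]; ring
    rw [e2, coeff_C_mul]
    have e3 : ((C a + C c * X ^ 2) ^ k * X ^ (M - k)).coeff M = ((C a + C c * X ^ 2) ^ k).coeff k := by
      have : M = k + (M - k) := by omega
      conv_lhs => rw [this, Nat.add_sub_cancel_left]
      rw [coeff_mul_X_pow]
    rw [e3, h1, mul_sum]
    have hsub : range (k + 1) ⊆ range (M + 1) := range_subset_range.mpr (by omega)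
    rw [← sum_subset hsub]
    · refine sum_congr rfl (fun j _ => ?_)
      split_ifs with h
      · rw [h]; ring
      · rw [mul_zero]
    · intro j _ hj
      rw [mem_range, not_lt] at hj
      rw [if_neg (by omega)]
  rw [sum_congr rfl h2, sum_comm]
  refine sum_congr rfl (fun j hj => ?_)
  rw [sum_ite_eq]
  split_ifs with h
  · rfl
  · rw [mem_range, not_lt] at h
    rw [Nat.choose_eq_zero_of_lt (by omega)]; simp

theorem coeff_sq (z : A) (M : ℕ) :
    ((C 1 + C (1 + z) * X + C z * X ^ 2) ^ M).coeff M =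
      ∑ k ∈ range (M + 1), (M.choose k : A) ^ 2 * z ^ k := by
  have e : (C 1 + C (1 + z) * X + C z * X ^ 2 : A[X]) = (C 1 + C z * X) * (C 1 + C 1 * X) := by
    simp only [C_add, C_1]; ring
  rw [e, mul_pow, coeff_mul, Nat.sum_antidiagonal_eq_sum_range_succ_mk]
  refine sum_congr rfl (fun k hk => ?_)
  rw [mem_range] at hk
  simp only
  rw [coeff_lin, coeff_lin, Nat.choose_symm (by omega)]
  simp only [one_pow]; ring

theorem coeff_shift (b η : A) (M : ℕ) :
    ((C η + C (b - 2 * η) * X + C η * X ^ 2) ^ M).coeff M =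
      ∑ k ∈ range (M + 1), (M.choose k : A) * ((2 * k).choose k : A) * (-η) ^ k * b ^ (M - k) := by
  have e : (C η + C (b - 2 * η) * X + C η * X ^ 2 : A[X]) = C η * (C 1 + C (-1) * X) ^ 2 + C b * X := by
    simp only [C_sub, C_mul, C_neg, C_1, map_ofNat]; ring
  rw [e, add_pow, finsetSum_coeff]
  refine sum_congr rfl (fun k hk => ?_)
  rw [mem_range] at hk
  have e2 : (C η * (C 1 + C (-1) * X) ^ 2) ^ k * (C b * X) ^ (M - k) * ((M.choose k : ℕ) : A[X])
      = C ((M.choose k : A) * η ^ k * b ^ (M - k)) * ((C 1 + C (-1) * X) ^ (2 * k) * X ^ (M - k)) := by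
    rw [mul_pow, mul_pow, ← pow_mul, ← C_eq_natCast, ← C_pow, ← C_pow, C_mul, C_mul]; ring
  rw [e2, coeff_C_mul]
  have e3 : ((C 1 + C (-1) * X : A[X]) ^ (2 * k) * X ^ (M - k)).coeff M
      = ((C 1 + C (-1) * X : A[X]) ^ (2 * k)).coeff k := by
    have : M = k + (M - k) := by omega
    conv_lhs => rw [this, Nat.add_sub_cancel_left]
    rw [coeff_mul_X_pow]
  rw [e3, coeff_lin]
  have e4 : (-η) ^ k = (-1) ^ k * η ^ k := by rw [← mul_pow]; simp
  rw [e4]; simp only [one_pow]; ring

theorem coeff_pfaff (z : A) (M : ℕ) :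
    ((C 1 + C (1 + z) * X + C z * X ^ 2) ^ M).coeff M =
      ∑ k ∈ range (M + 1), (M.choose k : A) * ((M + k).choose k : A) * z ^ k * (1 - z) ^ (M - k) := by
  have e : (C 1 + C (1 + z) * X + C z * X ^ 2 : A[X])
      = (C 1 + C 1 * X) * (C z * (C 1 + C 1 * X) + C (1 - z)) := by
    simp only [C_add, C_sub, C_1]; ring
  rw [e, mul_pow, add_pow (C z * (C 1 + C 1 * X)), mul_sum, finsetSum_coeff]
  refine sum_congr rfl (fun k hk => ?_)
  rw [mem_range] at hk
  have e2 : (C 1 + C 1 * X) ^ M * ((C z * (C 1 + C 1 * X)) ^ k * (C (1 - z)) ^ (M - k)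
      * ((M.choose k : ℕ) : A[X]))
      = C ((M.choose k : A) * z ^ k * (1 - z) ^ (M - k)) * (C 1 + C 1 * X) ^ (M + k) := by
    rw [mul_pow, ← C_eq_natCast, ← C_pow, ← C_pow, C_mul, C_mul, pow_add]; ring
  rw [e2, coeff_C_mul, coeff_lin]
  have e3 : (M + k).choose M = (M + k).choose k := by
    rw [Nat.choose_symm_add]
  rw [e3]; simp only [one_pow]; ring

end Pool.Agent.H61.Sun
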