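import Mathlib
import Pool.Agent.H61.Sun.Extract

set_option autoImplicit false
set_option linter.unusedSectionVars false

namespace Pool.Agent.H61.Sun

open Finset

variable {A : Type*} [CommRing A]

/-- A ring in which `p² = 0` and integers prime to `p` are invertible (`ι n` is the inverse). -/
structure Ctx (p N : ℕ) (ι : ℕ → A) : Prop where
  prime : p.Prime
  hN : p = 2 * N + 1
  sq : (p : A) ^ 2 = 0
  inv : ∀ n : ℕ, ¬ p ∣ n → (n : A) * ι n = 1

variable {p N : ℕ} {ι : ℕ → A}

theorem Ctx.cancel (h : Ctx p N ι) {n : ℕ} (hn : ¬ p ∣ n) {x y : A} (hxy : (n : A) * x = n * y) :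
    x = y := by
  have h1 := h.inv n hn
  linear_combination (ι n) * hxy - (x - y) * h1

theorem Ctx.ndvd (_h : Ctx p N ι) {n : ℕ} (h0 : 0 < n) (h1 : n < p) : ¬ p ∣ n := by
  intro hd
  have := Nat.le_of_dvd h0 hd
  omega

theorem Ctx.ndvd_mul (h : Ctx p N ι) {m n : ℕ} (h0 : ¬ p ∣ m) (h1 : ¬ p ∣ n) : ¬ p ∣ m * n := by
  rw [h.prime.dvd_mul]; tauto

theorem Ctx.ndvd2 (h : Ctx p N ι) : ¬ p ∣ 2 := by
  intro hd
  have h1 := (Nat.prime_dvd_prime_iff_eq h.prime Nat.prime_two).mp hd
  have := h.hN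
  omega

theorem Ctx.ndvd4 (h : Ctx p N ι) : ¬ p ∣ 4 := by
  have := h.ndvd_mul h.ndvd2 h.ndvd2
  simpa using this

/-- `binom(2k,k)/4^k`. -/
def gg (ι : ℕ → A) (k : ℕ) : A := (k.centralBinom : A) * (ι 4) ^ k

/-- Sum of the inverses of the first `k` odd numbers. -/
def OO (ι : ℕ → A) (k : ℕ) : A := ∑ j ∈ range k, ι (2 * j + 1)

theorem gg_zero : gg ι 0 = 1 := by simp [gg]

theorem OO_zero : OO ι 0 = 0 := by simp [OO]

theorem OO_succ (k : ℕ) : OO ι (k + 1) = OO ι k + ι (2 * k + 1) := by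
  simp [OO, sum_range_succ]

theorem Ctx.gg_succ (h : Ctx p N ι) (k : ℕ) :
    2 * ((k : A) + 1) * gg ι (k + 1) = (2 * k + 1) * gg ι k := by
  have h1 : ((k : A) + 1) * ((k + 1).centralBinom : A) = 2 * (2 * k + 1) * (k.centralBinom : A) := by
    have := Nat.succ_mul_centralBinom_succ k
    exact_mod_cast congrArg (Nat.cast : ℕ → A) this
  have h4 : (4 : A) * ι 4 = 1 := by simpa using h.inv 4 h.ndvd4
  simp only [gg, pow_succ]
  linear_combination (2 * ι 4 ^ k * ι 4) * h1 + ((2 * k + 1) * (k.centralBinom : A) * ι 4 ^ k) * h4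

theorem Ctx.choose_eq (h : Ctx p N ι) {M m : ℕ} (hM : 2 * M + 1 = m * p) (hNM : N ≤ M) :
    ∀ k ≤ N, (M.choose k : A) = (-1) ^ k * gg ι k * (1 - m * p * OO ι k) := by
  intro k
  induction k with
  | zero => intro _; simp [gg_zero, OO_zero]
  | succ k ih =>
    intro hk
    have ih' := ih (by omega)
    have hN := h.hN
    have h1 : ((k : A) + 1) * (M.choose (k + 1) : A) = (M.choose k : A) * ((M : A) - k) := by
      have := Nat.choose_succ_right_eq M k
      have h2 := congrArg (Nat.cast : ℕ → A) this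
      rw [Nat.cast_mul, Nat.cast_mul, Nat.cast_sub (by omega)] at h2
      push_cast at h2
      linear_combination h2
    have h2 : 2 * (M : A) + 1 = m * p := by exact_mod_cast congrArg (Nat.cast : ℕ → A) hM
    have h3 := h.gg_succ k
    have h4 : ((2 * k + 1 : ℕ) : A) * ι (2 * k + 1) = 1 := h.inv _ (h.ndvd (by omega) (by omega))
    push_cast at h4
    have hcan : ¬ p ∣ 2 * (k + 1) := h.ndvd_mul h.ndvd2 (h.ndvd (by omega) (by omega))
    apply h.cancel hcan
    push_cast
    rw [OO_succ, pow_succ]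
    rw [ih'] at h1
    have hsq := h.sq
    linear_combination 2 * h1 + ((-1) ^ k * gg ι k * (1 - m * p * OO ι k)) * h2
      + ((-1) ^ k * (1 - m * p * (OO ι k + ι (2 * k + 1)))) * h3
      - ((-1) ^ k * gg ι k * m * p) * h4
      - ((-1) ^ k * gg ι k * m ^ 2 * OO ι k) * hsq

theorem Ctx.choose_choose (h : Ctx p N ι) :
    ∀ k ≤ N, (N.choose k : A) * ((N + k).choose k : A) = (-1) ^ k * gg ι k ^ 2 := by
  intro k
  induction k with
  | zero => intro _; simp [gg_zero]
  | succ k ih =>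
    intro hk
    have ih' := ih (by omega)
    have hN := h.hN
    have h1 : ((k : A) + 1) * (N.choose (k + 1) : A) = (N.choose k : A) * ((N : A) - k) := by
      have := Nat.choose_succ_right_eq N k
      have h2 := congrArg (Nat.cast : ℕ → A) this
      rw [Nat.cast_mul, Nat.cast_mul, Nat.cast_sub (by omega)] at h2
      push_cast at h2
      linear_combination h2
    have h1' : ((k : A) + 1) * ((N + (k + 1)).choose (k + 1) : A)
        = ((N + k).choose k : A) * ((N : A) + k + 1) := by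
      have := Nat.add_one_mul_choose_eq (N + k) k
      have h2 := congrArg (Nat.cast : ℕ → A) this
      push_cast at h2
      rw [← add_assoc]
      linear_combination - h2
    have h2 : 2 * (N : A) + 1 = p := by rw [hN]; push_cast; ring
    have h3 := h.gg_succ k
    have hsq := h.sq
    have hcan : ¬ p ∣ (2 * (k + 1)) * (2 * (k + 1)) := by
      have := h.ndvd_mul h.ndvd2 (h.ndvd (n := k + 1) (by omega) (by omega))
      exact h.ndvd_mul this this
    apply h.cancel hcan
    push_cast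
    have e1 : (2 * ((k : A) + 1) * (2 * ((k : A) + 1))) * ((N.choose (k + 1) : A) * ((N + (k + 1)).choose (k + 1) : A))
        = (2 * (((k : A) + 1) * (N.choose (k + 1) : A))) * (2 * (((k : A) + 1) * ((N + (k + 1)).choose (k + 1) : A))) := by
      ring
    have e2 : (2 * ((k : A) + 1) * (2 * ((k : A) + 1))) * ((-1) ^ (k + 1) * gg ι (k + 1) ^ 2)
        = (-1) ^ (k + 1) * (2 * ((k : A) + 1) * gg ι (k + 1)) ^ 2 := by ring
    rw [e1, e2, h1, h1', h3, pow_succ]
    linear_combination (4 * ((N : A) - k) * ((N : A) + k + 1)) * ih'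
      + ((-1) ^ k * gg ι k ^ 2) * ((2 * (N : A) + 1 + p) * h2 + hsq)

theorem Ctx.gg_reflect (h : Ctx p N ι) {k : ℕ} (hk : k ≤ N) :
    gg ι (N - k) = (-1) ^ N * gg ι k * (1 - p * OO ι k + p * OO ι (N - k)) := by
  have hM : 2 * N + 1 = 1 * p := by have := h.hN; omega
  have h1 := h.choose_eq hM le_rfl k hk
  have h2 := h.choose_eq hM le_rfl (N - k) (by omega)
  rw [Nat.choose_symm hk, h1] at h2
  have hsq := h.sq
  have e1 : ((-1 : A)) ^ (N - k) * (-1) ^ (N - k) = 1 := by
    rw [← mul_pow]; simp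
  have e2 : ((-1 : A)) ^ (N - k) * (-1) ^ k = (-1) ^ N := by
    rw [← pow_add]; congr 1; omega
  push_cast at h2
  generalize ((-1 : A)) ^ (N - k) = s₁ at *
  generalize ((-1 : A)) ^ k = s₂ at *
  generalize ((-1 : A)) ^ N = s₃ at *
  linear_combination (-s₁ * (1 + p * OO ι (N - k))) * h2
    - gg ι (N - k) * (1 - 1 * p * OO ι (N - k)) * (1 + p * OO ι (N - k)) * e1
    + (gg ι k * (1 - 1 * p * OO ι k) * (1 + p * OO ι (N - k))) * e2
    + (gg ι (N - k) * OO ι (N - k) ^ 2 - s₃ * gg ι k * OO ι k * OO ι (N - k)) * hsq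

theorem centralBinom_prod (n t : ℕ) :
    (n + t).centralBinom * ∏ i ∈ range t, (2 * (n + i + 1)) =
      n.centralBinom * 4 ^ t * ∏ i ∈ range t, (2 * (n + i) + 1) := by
  induction t with
  | zero => simp
  | succ t ih =>
    have h := Nat.succ_mul_centralBinom_succ (n + t)
    rw [prod_range_succ, prod_range_succ, ← add_assoc]
    calc (n + t + 1).centralBinom * ((∏ i ∈ range t, (2 * (n + i + 1))) * (2 * (n + t + 1)))
        = ((n + t + 1) * (n + t + 1).centralBinom) * (2 * ∏ i ∈ range t, (2 * (n + i + 1))) := by ring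
      _ = (4 * (2 * (n + t) + 1)) * ((n + t).centralBinom * ∏ i ∈ range t, (2 * (n + i + 1))) := by
        rw [h]; ring
      _ = _ := by rw [ih]; ring

theorem Ctx.inv_sub (h : Ctx p N ι) {j : ℕ} (hj0 : 0 < j) (hj : j < p) :
    (p : A) * ι (p - j) = - (p * ι j) := by
  have h1 := h.inv (p - j) (h.ndvd (by omega) (by omega))
  have h2 := h.inv j (h.ndvd hj0 hj)
  rw [Nat.cast_sub hj.le] at h1
  have hsq := h.sq
  linear_combination - (p * ι (p - j)) * h2 - (p * ι j) * h1
    + (ι (p - j) * ι j) * hsq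

theorem Ctx.prod_odd (h : Ctx p N ι) :
    ∀ t ≤ N, ∏ i ∈ range t, ((p : A) + (2 * i + 1)) = (∏ i ∈ range t, (2 * (i : A) + 1)) * (1 + p * OO ι t) := by
  intro t
  induction t with
  | zero => intro _; simp [OO_zero]
  | succ t ih =>
    intro ht
    have hN := h.hN
    have h4 : ((2 * t + 1 : ℕ) : A) * ι (2 * t + 1) = 1 := h.inv _ (h.ndvd (by omega) (by omega))
    push_cast at h4
    rw [prod_range_succ, prod_range_succ, ih (by omega), OO_succ]
    have hsq := h.sq
    generalize (∏ i ∈ range t, (2 * (i : A) + 1)) = Q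
    linear_combination (- Q * p) * h4 + (Q * OO ι t) * hsq

theorem Ctx.prod_even (h : Ctx p N ι) :
    ∀ t ≤ N, ∏ i ∈ range t, ((p : A) + (2 * i + 2)) =
      (∏ i ∈ range t, (2 * (i : A) + 2)) * (1 + p * ∑ i ∈ range t, ι (2 * i + 2)) := by
  intro t
  induction t with
  | zero => intro _; simp
  | succ t ih =>
    intro ht
    have hN := h.hN
    have h4 : ((2 * t + 2 : ℕ) : A) * ι (2 * t + 2) = 1 := h.inv _ (h.ndvd (by omega) (by omega))
    push_cast at h4
    rw [prod_range_succ, prod_range_succ, ih (by omega), sum_range_succ]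
    have hsq := h.sq
    generalize (∏ i ∈ range t, (2 * (i : A) + 2)) = Q
    generalize (∑ i ∈ range t, ι (2 * i + 2)) = Z
    linear_combination (- Q * p) * h4 + (Q * Z) * hsq

theorem Ctx.even_sum (h : Ctx p N ι) :
    (p : A) * ∑ i ∈ range N, ι (2 * i + 2) = - (p * OO ι N) := by
  rw [← sum_range_reflect, OO, mul_sum, mul_sum, ← sum_neg_distrib]
  refine sum_congr rfl (fun i hi => ?_)
  rw [mem_range] at hi
  have hN := h.hN
  have e : 2 * (N - 1 - i) + 2 = p - (2 * i + 1) := by omega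
  rw [e, h.inv_sub (by omega) (by omega)]

theorem Ctx.gg_prod (h : Ctx p N ι) (t : ℕ) :
    gg ι t * ∏ i ∈ range t, (2 * (i : A) + 2) = ∏ i ∈ range t, (2 * (i : A) + 1) := by
  induction t with
  | zero => simp [gg_zero]
  | succ t ih =>
    rw [prod_range_succ, prod_range_succ, ← ih]
    linear_combination (∏ i ∈ range t, (2 * (i : A) + 2)) * h.gg_succ t

theorem Ctx.prod_unit (h : Ctx p N ι) : ∀ t ≤ N, IsUnit (∏ i ∈ range t, (2 * (i : A) + 1)) := by
  intro t
  induction t with
  | zero => intro _; simp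
  | succ t ih =>
    intro ht
    have hN := h.hN
    rw [prod_range_succ]
    refine (ih (by omega)).mul ?_
    have h4 : ((2 * t + 1 : ℕ) : A) * ι (2 * t + 1) = 1 := h.inv _ (h.ndvd (by omega) (by omega))
    push_cast at h4
    exact IsUnit.of_mul_eq_one _ h4

theorem Ctx.gg_p (h : Ctx p N ι) : 2 * gg ι p = 1 - 2 * p * OO ι N := by
  have hN := h.hN
  -- the identity in ℕ
  have h1 : 2 * p.centralBinom * ∏ i ∈ range N, (2 * (N + i + 1)) =
      N.centralBinom * 4 ^ (N + 1) * ∏ i ∈ range N, (2 * (N + i + 1) + 1) := by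
    have h2 := centralBinom_prod N (N + 1)
    have e1 : N + (N + 1) = p := by omega
    rw [e1, prod_range_succ, prod_range_succ'] at h2
    have e2 : 2 * (N + N + 1) = 2 * p := by omega
    have e3 : 2 * (N + 0) + 1 = p := by omega
    rw [e2, e3] at h2
    have hp0 : 0 < p := by omega
    apply Nat.eq_of_mul_eq_mul_right hp0
    calc 2 * p.centralBinom * (∏ i ∈ range N, (2 * (N + i + 1))) * p
        = p.centralBinom * ((∏ i ∈ range N, (2 * (N + i + 1))) * (2 * p)) := by ring
      _ = _ := by rw [h2]; simp only [← add_assoc]; ring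
  have h2 := congrArg (Nat.cast : ℕ → A) h1
  have e1 : (((∏ i ∈ range N, (2 * (N + i + 1)) : ℕ)) : A) = ∏ i ∈ range N, ((p : A) + (2 * i + 1)) := by
    rw [Nat.cast_prod]
    refine prod_congr rfl (fun i _ => ?_)
    rw [hN]; push_cast; ring
  have e2 : (((∏ i ∈ range N, (2 * (N + i + 1) + 1) : ℕ)) : A) = ∏ i ∈ range N, ((p : A) + (2 * i + 2)) := by
    rw [Nat.cast_prod]
    refine prod_congr rfl (fun i _ => ?_)
    rw [hN]; push_cast; ring
  rw [Nat.cast_mul, Nat.cast_mul, Nat.cast_mul, Nat.cast_mul, e1, e2, h.prod_odd N le_rfl,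
    h.prod_even N le_rfl, h.even_sum, ← h.gg_prod N] at h2
  push_cast at h2
  have h4 : (4 : A) * ι 4 = 1 := by simpa using h.inv 4 h.ndvd4
  have h44 : (4 : A) ^ (N + 1) * ι 4 ^ p = ι 4 ^ N := by
    rw [hN, show 2 * N + 1 = (N + 1) + N by ring, pow_add (ι 4), ← mul_assoc, ← mul_pow, h4, one_pow, one_mul]
  have hu := h.prod_unit N le_rfl
  rw [← h.gg_prod N] at hu
  have hsq := h.sq
  apply hu.mul_left_cancel
  simp only [gg] at h2 ⊢
  generalize (∏ i ∈ range N, (2 * (i : A) + 2)) = Q at *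
  linear_combination (ι 4 ^ p * (1 - p * OO ι N)) * h2
    + (N.centralBinom : A) * Q * (1 - p * OO ι N) * (1 - p * OO ι N) * h44
    + ((N.centralBinom : A) * ι 4 ^ N * ι 4 ^ p * Q * (p.centralBinom : A) * OO ι N ^ 2 * 2
      + (N.centralBinom : A) * ι 4 ^ N * Q * OO ι N ^ 2) * hsq

theorem Ctx.gg_add (h : Ctx p N ι) :
    ∀ j ≤ N, 2 * gg ι (p + j) = gg ι j * (1 + 2 * p * OO ι j - 2 * p * OO ι (N - j)) := by
  intro j
  induction j with
  | zero =>
    intro _
    rw [add_zero, h.gg_p, gg_zero, OO_zero, Nat.sub_zero]; ring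
  | succ j ih =>
    intro hj
    have ih' := ih (by omega)
    have hN := h.hN
    have hsq := h.sq
    obtain ⟨t, ht⟩ : ∃ t, N = j + 1 + t := ⟨N - (j + 1), by omega⟩
    have e1 : N - j = t + 1 := by omega
    have e2 : N - (j + 1) = t := by omega
    rw [e1, OO_succ] at ih'
    rw [e2, OO_succ]
    have e3 : 2 * t + 1 = p - (2 * (j + 1)) := by omega
    have h5 : (p : A) * ι (2 * t + 1) = - (p * ι (2 * (j + 1))) := by
      rw [e3]; exact h.inv_sub (by omega) (by omega)
    have h6 : ((2 * (j + 1) : ℕ) : A) * ι (2 * (j + 1)) = 1 := h.inv _ (h.ndvd (by omega) (by omega))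
    have h7 : ((2 * j + 1 : ℕ) : A) * ι (2 * j + 1) = 1 := h.inv _ (h.ndvd (by omega) (by omega))
    push_cast at h6 h7
    have h8 := h.gg_succ j
    have h9 := h.gg_succ (p + j)
    push_cast at h9
    have hcan : ¬ p ∣ 2 * (p + j + 1) := by
      refine h.ndvd_mul h.ndvd2 ?_
      intro hd
      have : p ∣ j + 1 := by
        have e : p + j + 1 = p + (j + 1) := by ring
        rw [e] at hd
        exact (Nat.dvd_add_right (dvd_refl p)).mp hd
      exact h.ndvd (by omega) (by omega) this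
    apply h.cancel hcan
    push_cast
    rw [← add_assoc]
    generalize gg ι (p + j + 1) = G1 at *
    generalize gg ι (p + j) = G0 at *
    generalize gg ι (j + 1) = g1 at *
    generalize gg ι j = g0 at *
    generalize OO ι j = o at *
    generalize OO ι t = q at *
    generalize ι (2 * j + 1) = a1 at *
    generalize ι (2 * t + 1) = a2 at *
    generalize ι (2 * (j + 1)) = a3 at *
    -- want: 2 (p+j+1) * (2 G1) = 2 (p+j+1) * (g1 * (1 + 2p(o + a1) - 2 p q))
    have k1 : (2 * ((p : A) + j + 1)) * (g1 * (1 + 2 * p * (o + a1) - 2 * p * q)) =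
        (2 * j + 1) * g0 * (1 + 2 * p * (o + a1) - 2 * p * q) + 2 * p * g1 := by
      linear_combination (1 + 2 * p * (o + a1) - 2 * p * q) * h8
        + (4 * g1 * (o + a1) - 4 * g1 * q) * hsq
    have k2 : (p : A) * g1 = p * ((2 * j + 1) * g0 * a3) := by
      linear_combination (-(p : A) * g1) * h6 + (p * a3) * h8
    rw [k1]
    linear_combination 2 * h9 + (2 * (p + (j : A)) + 1) * ih' - 2 * k2
      - (2 * g0 * (2 * j + 1)) * h5 - 2 * p * g0 * h7
      + (4 * g0 * (o - q - a2)) * hsq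

theorem Ctx.dvd_zero_mul (h : Ctx p N ι) {m n : ℕ} (hm : p ∣ m) (hn : p ∣ n) :
    (m : A) * (n : A) = 0 := by
  obtain ⟨a, rfl⟩ := hm
  obtain ⟨b, rfl⟩ := hn
  push_cast
  linear_combination ((a : A) * b) * h.sq

theorem Ctx.dvd_cb (h : Ctx p N ι) {k : ℕ} (h1 : N < k) (h2 : k < p) : p ∣ k.centralBinom := by
  have hN := h.hN
  rw [Nat.centralBinom_eq_two_mul_choose, two_mul]
  exact h.prime.dvd_choose_add h2 h2 (by omega)

theorem Ctx.dvd_choose (h : Ctx p N ι) {k : ℕ} (h1 : N < k) (h2 : k < p) : p ∣ (p + N).choose k := by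
  have hN := h.hN
  have e : p + N = k + (p + N - k) := by omega
  rw [e]
  exact h.prime.dvd_choose_add h2 (by omega) (by omega)

end Pool.Agent.H61.Sun
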