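import Mathlib
import Pool.Agent.H61.Sun.Mod

set_option autoImplicit false
set_option linter.unusedSectionVars false

namespace Pool.Agent.H61.Sun

open Finset

variable {A : Type*} [CommRing A] {p N : ℕ} {ι : ℕ → A}

/-- `∑ g_k² z^k`. -/
def SS (ι : ℕ → A) (N : ℕ) (z : A) : A := ∑ k ∈ range (N + 1), gg ι k ^ 2 * z ^ k

/-- `∑ p O_k g_k² z^k`. -/
def TT (p : ℕ) (ι : ℕ → A) (N : ℕ) (z : A) : A :=
  ∑ k ∈ range (N + 1), (p : A) * OO ι k * gg ι k ^ 2 * z ^ k

/-- `∑ p O_{N-k} g_k² z^k`. -/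
def TR (p : ℕ) (ι : ℕ → A) (N : ℕ) (z : A) : A :=
  ∑ k ∈ range (N + 1), (p : A) * OO ι (N - k) * gg ι k ^ 2 * z ^ k

/-- `∑ binom(M,k)² z^k`. -/
def DD (M : ℕ) (z : A) : A := ∑ k ∈ range (M + 1), (M.choose k : A) ^ 2 * z ^ k

/-- `∑ binom(M,k) g_k (-y)^k`. -/
def BB (ι : ℕ → A) (M : ℕ) (y : A) : A := ∑ k ∈ range (M + 1), (M.choose k : A) * gg ι k * (-y) ^ k

theorem Ctx.DD_eq (h : Ctx p N ι) (z : A) : DD N z = SS ι N z - 2 * TT p ι N z := by
  rw [DD, SS, TT, mul_sum, ← sum_sub_distrib]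
  refine sum_congr rfl (fun k hk => ?_)
  rw [mem_range] at hk
  have hM : 2 * N + 1 = 1 * p := by have := h.hN; omega
  rw [h.choose_eq hM le_rfl k (by omega)]
  have e : ((-1 : A) ^ k) ^ 2 = 1 := by rw [← pow_mul, mul_comm, pow_mul]; simp
  push_cast
  linear_combination (gg ι k ^ 2 * (1 - p * OO ι k) ^ 2 * z ^ k) * e
    + (gg ι k ^ 2 * OO ι k ^ 2 * z ^ k) * h.sq

theorem Ctx.BB_eq (h : Ctx p N ι) (y : A) : BB ι N y = SS ι N y - TT p ι N y := by
  rw [BB, SS, TT, ← sum_sub_distrib]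
  refine sum_congr rfl (fun k hk => ?_)
  rw [mem_range] at hk
  have hM : 2 * N + 1 = 1 * p := by have := h.hN; omega
  rw [h.choose_eq hM le_rfl k (by omega)]
  have e : ((-1 : A) ^ k) ^ 2 = 1 := by rw [← pow_mul, mul_comm, pow_mul]; simp
  have e2 : (-y) ^ k = (-1) ^ k * y ^ k := by rw [← mul_pow]; simp
  rw [e2]
  push_cast
  linear_combination (gg ι k ^ 2 * (1 - p * OO ι k) * y ^ k) * e

theorem Ctx.pfaff (h : Ctx p N ι) {z w : A} (hzw : -z = w * (1 - z)) :
    DD N z = (1 - z) ^ N * SS ι N w := by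
  rw [DD, ← coeff_sq, coeff_pfaff, SS, mul_sum]
  refine sum_congr rfl (fun k hk => ?_)
  rw [mem_range] at hk
  rw [h.choose_choose k (by omega)]
  have e : (1 - z) ^ N = (1 - z) ^ (N - k) * (1 - z) ^ k := by
    rw [← pow_add]; congr 1; omega
  have e2 : (-1) ^ k * z ^ k = w ^ k * (1 - z) ^ k := by
    rw [← mul_pow, ← mul_pow, ← hzw]; simp
  rw [e]
  linear_combination (gg ι k ^ 2 * (1 - z) ^ (N - k)) * e2

theorem Ctx.quad (h : Ctx p N ι) {z w c : A} (hc : c = (1 + z) ^ 2) (hw : 4 * z = w * c) :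
    DD N (z ^ 2) = c ^ N * (SS ι N w - TT p ι N w) := by
  have e1 : DD N (z ^ 2) = ((Polynomial.C z + Polynomial.C (c - 2 * z) * Polynomial.X
      + Polynomial.C z * Polynomial.X ^ 2) ^ N).coeff N := by
    rw [DD, ← coeff_sq, coeff_tri, coeff_tri]
    refine sum_congr rfl (fun k _ => ?_)
    rw [hc]; ring
  rw [e1, coeff_shift, SS, TT, ← sum_sub_distrib, mul_sum]
  refine sum_congr rfl (fun k hk => ?_)
  rw [mem_range] at hk
  have hM : 2 * N + 1 = 1 * p := by have := h.hN; omega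
  rw [h.choose_eq hM le_rfl k (by omega)]
  have e : ((-1 : A) ^ k) ^ 2 = 1 := by rw [← pow_mul, mul_comm, pow_mul]; simp
  have e2 : (-z) ^ k = (-1) ^ k * z ^ k := by rw [← mul_pow]; simp
  have e3 : c ^ N = c ^ (N - k) * c ^ k := by
    rw [← pow_add]; congr 1; omega
  have e4 : (4 : A) ^ k * z ^ k = w ^ k * c ^ k := by
    rw [← mul_pow, ← mul_pow, ← hw]
  have h4 : (4 : A) * ι 4 = 1 := by simpa using h.inv 4 h.ndvd4
  have h44 : (4 : A) ^ k * ι 4 ^ k = 1 := by rw [← mul_pow, h4, one_pow]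
  have e5 : ((2 * k).choose k : A) = 4 ^ k * gg ι k := by
    rw [gg, Nat.centralBinom_eq_two_mul_choose]
    linear_combination (-((2 * k).choose k : A)) * h44
  rw [e2, e3, e5]
  push_cast
  linear_combination (gg ι k ^ 2 * (1 - p * OO ι k) * 4 ^ k * z ^ k * c ^ (N - k)) * e
    + (gg ι k ^ 2 * (1 - p * OO ι k) * c ^ (N - k)) * e4

theorem DD_pal {M : ℕ} {z z' : A} (hz : z * z' = 1) : DD M z = z ^ M * DD M z' := by
  rw [DD, DD, mul_sum, ← sum_range_reflect]
  refine sum_congr rfl (fun k hk => ?_)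
  rw [mem_range] at hk
  have e : M + 1 - 1 - k = M - k := by omega
  rw [e, Nat.choose_symm (by omega)]
  have e3 : z ^ M = z ^ (M - k) * z ^ k := by
    rw [← pow_add]; congr 1; omega
  have e4 : z ^ k * z' ^ k = 1 := by rw [← mul_pow, hz, one_pow]
  rw [e3]
  linear_combination (-(M.choose k : A) ^ 2 * z ^ (M - k)) * e4

theorem Ctx.TR_eq (h : Ctx p N ι) {z z' : A} (hz : z * z' = 1) :
    TR p ι N z = z ^ N * TT p ι N z' := by
  rw [TR, TT, mul_sum, ← sum_range_reflect]
  refine sum_congr rfl (fun k hk => ?_)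
  rw [mem_range] at hk
  have e : N + 1 - 1 - k = N - k := by omega
  have e1 : N - (N - k) = k := by omega
  rw [e, e1, h.gg_reflect (by omega)]
  have e3 : z ^ N = z ^ (N - k) * z ^ k := by
    rw [← pow_add]; congr 1; omega
  have e4 : z ^ k * z' ^ k = 1 := by rw [← mul_pow, hz, one_pow]
  have e5 : ((-1 : A) ^ N) ^ 2 = 1 := by rw [← pow_mul, mul_comm, pow_mul]; simp
  rw [e3]
  generalize OO ι (N - k) = q
  generalize OO ι k = o
  generalize gg ι k = g
  linear_combination ((p : A) * o * g ^ 2 * (1 - p * o + p * q) ^ 2 * z ^ (N - k)) * e5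
    - ((p : A) * o * g ^ 2 * z ^ (N - k)) * e4
    + (o * g ^ 2 * z ^ (N - k) * (2 * (q - o) + p * (q - o) ^ 2)) * h.sq

/-- Splitting of a sum over `k ≤ p + N` in which the middle terms vanish. -/
theorem sum_split {F : ℕ → A} (hN : p = 2 * N + 1) (hF : ∀ k, N < k → k < p → F k = 0) :
    ∑ k ∈ range (p + N + 1), F k = ∑ k ∈ range (N + 1), F k + ∑ j ∈ range (N + 1), F (p + j) := by
  rw [show p + N + 1 = p + (N + 1) by ring, sum_range_add]
  congr 1
  have e : p = (N + 1) + N := by omega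
  conv_lhs => rw [e, sum_range_add]
  rw [add_eq_left]
  refine sum_eq_zero (fun j hj => ?_)
  rw [mem_range] at hj
  exact hF _ (by omega) (by omega)

theorem Ctx.DD_three (h : Ctx p N ι) {z z' : A} (hz : z * z' = 1) :
    DD (p + N) z = (SS ι N z - 6 * TT p ι N z) + z ^ (p + N) * (SS ι N z' - 6 * TT p ι N z') := by
  have hN := h.hN
  have hM : 2 * (p + N) + 1 = 3 * p := by omega
  have hsq : ∀ k ≤ N, ((p + N).choose k : A) ^ 2 = gg ι k ^ 2 * (1 - 6 * p * OO ι k) := by
    intro k hk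
    rw [h.choose_eq hM (by omega) k hk]
    have e : ((-1 : A) ^ k) ^ 2 = 1 := by rw [← pow_mul, mul_comm, pow_mul]; simp
    push_cast
    linear_combination (gg ι k ^ 2 * (1 - 3 * p * OO ι k) ^ 2) * e
      + (9 * gg ι k ^ 2 * OO ι k ^ 2) * h.sq
  rw [DD, sum_split hN]
  · congr 1
    · rw [SS, TT, mul_sum, ← sum_sub_distrib]
      refine sum_congr rfl (fun k hk => ?_)
      rw [mem_range] at hk
      rw [hsq k (by omega)]; ring
    · rw [SS, TT, mul_sum, ← sum_sub_distrib, mul_sum, ← sum_range_reflect]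
      refine sum_congr rfl (fun k hk => ?_)
      rw [mem_range] at hk
      have e : N + 1 - 1 - k = N - k := by omega
      have e1 : (p + N).choose (p + (N - k)) = (p + N).choose k := by
        rw [← Nat.choose_symm (by omega)]; congr 1; omega
      rw [e, e1, hsq k (by omega)]
      have e3 : z ^ (p + N) = z ^ (p + (N - k)) * z ^ k := by
        rw [← pow_add]; congr 1; omega
      have e4 : z ^ k * z' ^ k = 1 := by rw [← mul_pow, hz, one_pow]
      rw [e3]
      linear_combination (-gg ι k ^ 2 * (1 - 6 * p * OO ι k) * z ^ (p + (N - k))) * e4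
  · intro k hk1 hk2
    rw [pow_two, h.dvd_zero_mul (h.dvd_choose hk1 hk2) (h.dvd_choose hk1 hk2), zero_mul]

theorem Ctx.BB_three (h : Ctx p N ι) (y : A) :
    2 * BB ι (p + N) y = 2 * (SS ι N y - 3 * TT p ι N y)
      - y ^ p * (SS ι N y + TT p ι N y - 4 * TR p ι N y) := by
  have hN := h.hN
  have hM : 2 * (p + N) + 1 = 3 * p := by omega
  rw [BB, sum_split hN]
  · rw [mul_add, sub_eq_add_neg]
    congr 1
    · congr 1
      rw [SS, TT, mul_sum, ← sum_sub_distrib]
      refine sum_congr rfl (fun k hk => ?_)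
      rw [mem_range] at hk
      rw [h.choose_eq hM (by omega) k (by omega)]
      have e : ((-1 : A) ^ k) ^ 2 = 1 := by rw [← pow_mul, mul_comm, pow_mul]; simp
      have e2 : (-y) ^ k = (-1) ^ k * y ^ k := by rw [← mul_pow]; simp
      rw [e2]
      push_cast
      linear_combination (gg ι k ^ 2 * (1 - 3 * p * OO ι k) * y ^ k) * e
    · rw [SS, TT, TR, mul_sum, mul_sum, ← sum_add_distrib, ← sum_sub_distrib, mul_sum, ← sum_neg_distrib]
      refine sum_congr rfl (fun k hk => ?_)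
      rw [mem_range] at hk
      have e1 : (p + N).choose (p + k) = (p + N).choose (N - k) := by
        rw [← Nat.choose_symm (by omega)]; congr 1; omega
      rw [e1, h.choose_eq hM (by omega) (N - k) (by omega), h.gg_reflect (k := k) (by omega)]
      have e2 : (-y) ^ (p + k) = (-1) ^ (p + k) * y ^ (p + k) := by rw [← mul_pow]; simp
      have e3 : ((-1 : A) ^ (N - k)) * (-1) ^ N * (-1) ^ (p + k) = -1 := by
        rw [← pow_add, ← pow_add]
        have : N - k + N + (p + k) = 2 * (2 * N) + 1 := by omega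
        rw [this, pow_succ, pow_mul]; simp
      have e4 := h.gg_add k (by omega)
      have hsq := h.sq
      rw [e2, pow_add y]
      push_cast
      generalize OO ι (N - k) = q at *
      generalize OO ι k = o at *
      generalize gg ι (p + k) = G at *
      generalize gg ι k = g at *
      generalize ((-1 : A) ^ (N - k)) = s1 at *
      generalize ((-1 : A) ^ N) = s2 at *
      generalize ((-1 : A) ^ (p + k)) = s3 at *
      generalize (y ^ p) = Y at *
      generalize (y ^ k) = Z at *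
      linear_combination (s1 * s2 * s3 * g * (1 - p * o + p * q) * (1 - 3 * p * q) * Y * Z) * e4
        + (g ^ 2 * (1 - p * o + p * q) * (1 - 3 * p * q) * (1 + 2 * p * o - 2 * p * q) * Y * Z) * e3
        + (g ^ 2 * Y * Z * (-(o * q) + 2 * o ^ 2 - q ^ 2 + 12 * p * o * q ^ 2 - 6 * p * o ^ 2 * q
          - 6 * p * q ^ 3)) * hsq
  · intro k hk1 hk2
    have : gg ι k * ((p + N).choose k : A) = 0 := by
      rw [gg]
      linear_combination (ι 4 ^ k) * h.dvd_zero_mul (h.dvd_cb hk1 hk2) (h.dvd_choose hk1 hk2)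
    linear_combination ((-y) ^ k) * this

end Pool.Agent.H61.Sun
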