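import Mathlib
import Pool.Agent.H61.Sun.Sums

set_option autoImplicit false
set_option linter.unusedSectionVars false

namespace Pool.Agent.H61.Sun

open Finset

variable {A : Type*} [CommRing A] {p N : ℕ} {ι : ℕ → A}

theorem Ctx.p_TT (h : Ctx p N ι) (z : A) : (p : A) * TT p ι N z = 0 := by
  rw [TT, mul_sum]
  refine sum_eq_zero (fun k _ => ?_)
  linear_combination (OO ι k * gg ι k ^ 2 * z ^ k) * h.sq

theorem Ctx.half (h : Ctx p N ι) {x y : A} (hxy : 2 * x = 2 * y) : x = y :=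
  h.cancel h.ndvd2 (by exact_mod_cast hxy)

theorem Ctx.special (h : Ctx p N ι) {a b r e : A} (hab : a + b = 1) (hmul : a * b = 2)
    (hr : b * r = 1) (hb : b ^ (2 * N) = 1 + p * e) :
    TT p ι N (a ^ 4) = -(p * e) * SS ι N (a ^ 4) ∧
    SS ι N (-(a ^ 4 * r ^ 4)) = SS ι N (a ^ 4) ∧
    TT p ι N (-(a ^ 4 * r ^ 4)) = p * e * SS ι N (a ^ 4) ∧
    DD N (a ^ 4) = (1 + 2 * p * e) * SS ι N (a ^ 4) := by
  have ha2 : a ^ 2 = a - 2 := by linear_combination a * hab - hmul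
  have hb2 : b ^ 2 = b - 2 := by linear_combination b * hab - hmul
  have hsum : a ^ 4 + b ^ 4 = 1 := by
    linear_combination ((a + b) ^ 3 + (a + b) ^ 2 + (a + b) + 1 - 4 * (a * b) * ((a + b) + 1)) * hab
      + 2 * (a * b) * hmul
  have hsq := h.sq
  have hb4 : (b ^ 4) ^ N = 1 + 2 * p * e := by
    have : (b ^ 4) ^ N = (b ^ (2 * N)) ^ 2 := by rw [← pow_mul, ← pow_mul]; congr 1; ring
    rw [this, hb]; linear_combination (e ^ 2) * hsq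
  have hr4 : (r ^ 4) ^ N = 1 - 2 * p * e := by
    have h1 : (r ^ 4) ^ N * (b ^ 4) ^ N = 1 := by
      rw [← mul_pow, ← mul_pow, mul_comm r b, hr, one_pow, one_pow]
    rw [hb4] at h1
    linear_combination (1 - 2 * p * e) * h1 + (4 * e ^ 2 * (r ^ 4) ^ N) * hsq
  -- quadratic relation
  have q := h.quad (z := a ^ 2) (w := a ^ 4) (c := b ^ 2)
    (by
      have : 1 + a ^ 2 = - b := by linear_combination ha2 + hab
      rw [this]; ring)
    (by linear_combination (-(a ^ 2) * (a * b + 2)) * hmul)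
  rw [← pow_mul, ← pow_mul, hb, show 2 * 2 = 4 by norm_num, h.DD_eq] at q
  have pT := h.p_TT (a ^ 4)
  have t1 : TT p ι N (a ^ 4) = -(p * e) * SS ι N (a ^ 4) := by
    linear_combination - q + e * pT
  have d1 : DD N (a ^ 4) = (1 + 2 * p * e) * SS ι N (a ^ 4) := by
    rw [h.DD_eq, t1]; ring
  -- first Pfaff relation
  have e1 : 1 - a ^ 4 = b ^ 4 := by linear_combination - hsum
  have f1 := h.pfaff (z := a ^ 4) (w := -(a ^ 4 * r ^ 4)) (by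
    rw [e1]
    have : b ^ 4 * r ^ 4 = 1 := by rw [← mul_pow, hr, one_pow]
    linear_combination (a ^ 4) * this)
  rw [e1, hb4, d1] at f1
  have s1 : SS ι N (-(a ^ 4 * r ^ 4)) = SS ι N (a ^ 4) := by
    linear_combination (-(1 - 2 * p * e)) * f1
      + (4 * e ^ 2 * (SS ι N (-(a ^ 4 * r ^ 4)) - SS ι N (a ^ 4))) * hsq
  -- second Pfaff relation
  have e2 : 1 - (-(a ^ 4 * r ^ 4)) = r ^ 4 := by
    have : b ^ 4 * r ^ 4 = 1 := by rw [← mul_pow, hr, one_pow]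
    linear_combination (r ^ 4) * hsum - this
  have f2 := h.pfaff (z := -(a ^ 4 * r ^ 4)) (w := a ^ 4) (by rw [e2]; ring)
  rw [e2, hr4, h.DD_eq, s1] at f2
  refine ⟨t1, s1, ?_, d1⟩
  apply h.half
  linear_combination - f2

/-- All the special values that are needed. -/
structure Vals (p : ℕ) (ι : ℕ → A) (N : ℕ) (a b r r' e₁ e₂ s : A) : Prop where
  Slam : SS ι N (-(a ^ 4 * r ^ 4)) = s
  Tlam : TT p ι N (-(a ^ 4 * r ^ 4)) = p * e₂ * s
  Smu : SS ι N (-(b ^ 4 * r' ^ 4)) = (-1) ^ N * s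
  Tmu : TT p ι N (-(b ^ 4 * r' ^ 4)) = p * e₁ * ((-1) ^ N * s)
  Sy : SS ι N (r ^ 4) = (-1) ^ N * s
  Ty : TT p ι N (r ^ 4) = (p * e₂ - p * e₁) * ((-1) ^ N * s)
  Ry : TR p ι N (r ^ 4) = -(p * e₁) * ((-1) ^ N * s)
  Gs : ∑ k ∈ range (N + 1), gg ι k * gg ι (N - k) * (b ^ 2) ^ k * (r ^ 2) ^ (N - k) = s

theorem Ctx.vals (h : Ctx p N ι) {a b r r' e₁ e₂ : A} (hab : a + b = 1) (hmul : a * b = 2)
    (hr : b * r = 1) (hr' : a * r' = 1) (ha : a ^ (2 * N) = 1 + p * e₁)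
    (hb : b ^ (2 * N) = 1 + p * e₂) :
    Vals p ι N a b r r' e₁ e₂ (SS ι N (a ^ 4)) := by
  obtain ⟨t1, s1, t2, d1⟩ := h.special hab hmul hr hb
  obtain ⟨t1', s1', t2', d1'⟩ := h.special (a := b) (b := a) (r := r') (e := e₁)
    (by rw [add_comm]; exact hab) (by rw [mul_comm]; exact hmul) hr' ha
  have hsq := h.sq
  set s := SS ι N (a ^ 4) with hs
  set s' := SS ι N (b ^ 4) with hs'
  have sgn : ((-1 : A) ^ N) * (-1) ^ N = 1 := by rw [← mul_pow]; simp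
  have ra : a ^ 4 * r' ^ 4 = 1 := by rw [← mul_pow, hr', one_pow]
  have rb : b ^ 4 * r ^ 4 = 1 := by rw [← mul_pow, hr, one_pow]
  -- powers
  have ha4 : (a ^ 4) ^ N = 1 + 2 * p * e₁ := by
    have : (a ^ 4) ^ N = (a ^ (2 * N)) ^ 2 := by rw [← pow_mul, ← pow_mul]; congr 1; ring
    rw [this, ha]; linear_combination (e₁ ^ 2) * hsq
  have hb4 : (b ^ 4) ^ N = 1 + 2 * p * e₂ := by
    have : (b ^ 4) ^ N = (b ^ (2 * N)) ^ 2 := by rw [← pow_mul, ← pow_mul]; congr 1; ring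
    rw [this, hb]; linear_combination (e₂ ^ 2) * hsq
  have hr4 : (r ^ 4) ^ N = 1 - 2 * p * e₂ := by
    have h1 : (b ^ 4) ^ N * (r ^ 4) ^ N = 1 := by rw [← mul_pow, rb, one_pow]
    rw [hb4] at h1
    linear_combination (1 - 2 * p * e₂) * h1 + (4 * e₂ ^ 2 * (r ^ 4) ^ N) * hsq
  have hr'4 : (r' ^ 4) ^ N = 1 - 2 * p * e₁ := by
    have h1 : (a ^ 4) ^ N * (r' ^ 4) ^ N = 1 := by rw [← mul_pow, ra, one_pow]
    rw [ha4] at h1
    linear_combination (1 - 2 * p * e₁) * h1 + (4 * e₁ ^ 2 * (r' ^ 4) ^ N) * hsq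
  have hlamN : (-(a ^ 4 * r ^ 4)) ^ N = (-1) ^ N * (1 + 2 * p * e₁ - 2 * p * e₂) := by
    rw [neg_pow, mul_pow, ha4, hr4]; linear_combination (-(-1) ^ N * 4 * e₁ * e₂) * hsq
  have hmuN : (-(b ^ 4 * r' ^ 4)) ^ N = (-1) ^ N * (1 + 2 * p * e₂ - 2 * p * e₁) := by
    rw [neg_pow, mul_pow, hb4, hr'4]; linear_combination (-(-1) ^ N * 4 * e₁ * e₂) * hsq
  have lm : (-(a ^ 4 * r ^ 4)) * (-(b ^ 4 * r' ^ 4)) = 1 := by
    linear_combination (a ^ 4 * r' ^ 4) * rb + ra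
  -- `s' = (-1)^N s`
  have pal := DD_pal (M := N) lm
  rw [h.DD_eq, h.DD_eq, s1, t2, s1', t2', hlamN] at pal
  have hss : s' = (-1) ^ N * s := by
    generalize ((-1 : A) ^ N) = σ at *
    linear_combination (-(σ * (1 + 2 * p * e₂))) * pal
      - ((1 + 2 * p * e₂) * (1 + 2 * p * e₁ - 2 * p * e₂) * (1 - 2 * p * e₁) * s') * sgn
      - (4 * σ * e₂ ^ 2 * s + (-4 * e₁ ^ 2 + 4 * e₁ * e₂ - 4 * e₂ ^ 2 - 8 * p * e₁ ^ 2 * e₂
        + 8 * p * e₁ * e₂ ^ 2) * s') * hsq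
  have ab4 : a ^ 4 + b ^ 4 = 1 := by
    linear_combination ((a + b) ^ 3 + (a + b) ^ 2 + (a + b) + 1 - 4 * (a * b) * ((a + b) + 1)) * hab
      + 2 * (a * b) * hmul
  have y1 : 1 - r ^ 4 = -(a ^ 4 * r ^ 4) := by linear_combination (r ^ 4) * ab4 - rb
  have y1' : 1 - r' ^ 4 = -(b ^ 4 * r' ^ 4) := by linear_combination (r' ^ 4) * ab4 - ra
  -- values at `y = r⁴`
  have p2 := DD_pal (M := N) (z := r' ^ 4) (z' := a ^ 4) (by rw [mul_comm]; exact ra)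
  have p3 := DD_pal (M := N) (z := r ^ 4) (z' := b ^ 4) (by rw [mul_comm]; exact rb)
  have f3 := h.pfaff (z := r' ^ 4) (w := r ^ 4) (by
    rw [y1']; linear_combination (r' ^ 4) * rb)
  rw [y1', hmuN] at f3
  rw [hr'4, d1] at p2
  rw [hr4, d1'] at p3
  have Sy : SS ι N (r ^ 4) = (-1) ^ N * s := by
    rw [p2] at f3
    generalize ((-1 : A) ^ N) = σ at *
    linear_combination (-(σ * (1 + 2 * p * e₁ - 2 * p * e₂))) * f3
      - ((1 + 2 * p * e₁ - 2 * p * e₂) * (1 + 2 * p * e₂ - 2 * p * e₁) * SS ι N (r ^ 4)) * sgn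
      + (σ * (-4 * e₁ ^ 2 + 4 * e₁ * e₂ - 4 * e₂ ^ 2 - 8 * p * e₁ ^ 2 * e₂ + 8 * p * e₁ * e₂ ^ 2) * s
        + 4 * (e₁ - e₂) ^ 2 * SS ι N (r ^ 4)) * hsq
  have Ty : TT p ι N (r ^ 4) = (p * e₂ - p * e₁) * ((-1) ^ N * s) := by
    rw [h.DD_eq, Sy, ← hss] at p3
    rw [← hss]
    apply h.half
    linear_combination - p3 + (4 * e₁ * e₂ * s') * hsq
  have Ry : TR p ι N (r ^ 4) = -(p * e₁) * ((-1) ^ N * s) := by
    rw [h.TR_eq (z := r ^ 4) (z' := b ^ 4) (by rw [mul_comm]; exact rb), hr4, t1', ← hss]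
    linear_combination (2 * e₁ * e₂ * s') * hsq
  have Rb : TR p ι N (b ^ 4) = (p * e₂ - p * e₁) * ((-1) ^ N * s) := by
    rw [h.TR_eq (z := b ^ 4) (z' := r ^ 4) rb, hb4, Ty, ← hss]
    linear_combination (2 * e₂ * (e₂ - e₁) * s') * hsq
  have hr2 : (r ^ 2) ^ N = 1 - p * e₂ := by
    have h1 : b ^ (2 * N) * (r ^ 2) ^ N = 1 := by
      rw [pow_mul, ← mul_pow, ← mul_pow, hr, one_pow, one_pow]
    rw [hb] at h1
    linear_combination (1 - p * e₂) * h1 + (e₂ ^ 2 * (r ^ 2) ^ N) * hsq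
  refine ⟨s1, t2, by rw [s1', hss], by rw [t2', hss], Sy, Ty, Ry, ?_⟩
  have key : ∑ k ∈ range (N + 1), gg ι k * gg ι (N - k) * (b ^ 2) ^ k * (r ^ 2) ^ (N - k) =
      (r ^ 2) ^ N * ((-1) ^ N * (SS ι N (b ^ 4) - TT p ι N (b ^ 4) + TR p ι N (b ^ 4))) := by
    rw [SS, TT, TR, ← sum_sub_distrib, ← sum_add_distrib, mul_sum, mul_sum]
    refine sum_congr rfl (fun k hk => ?_)
    rw [mem_range] at hk
    rw [h.gg_reflect (k := k) (by omega)]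
    have e1 : (b ^ 2) ^ k * (r ^ 2) ^ (N - k) = (b ^ 4) ^ k * (r ^ 2) ^ N := by
      have : (r ^ 2) ^ N = (r ^ 2) ^ k * (r ^ 2) ^ (N - k) := by
        rw [← pow_add]; congr 1; omega
      rw [this]
      have e2 : (b ^ 4) ^ k * (r ^ 2) ^ k = (b ^ 2) ^ k := by
        rw [← mul_pow]; congr 1; linear_combination (b ^ 2 * (b * r + 1)) * hr
      rw [← mul_assoc, e2]
    linear_combination (gg ι k ^ 2 * (-1) ^ N * (1 - p * OO ι k + p * OO ι (N - k))) * e1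
  rw [key, hr2, t1', Rb, ← hss, ← hs']
  linear_combination ((-1) ^ N * 1) * hss + s * sgn
    - ((-1) ^ N * (e₂ ^ 2 * s')) * hsq

end Pool.Agent.H61.Sun
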