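import Mathlib
import Pool.Agent.H61.Sun.Special

set_option autoImplicit false
set_option linter.unusedSectionVars false

namespace Pool.Agent.H61.Sun

open Finset

variable {A : Type*} [CommRing A] {p N : ℕ} {ι : ℕ → A}

/-- `binom(ν - 1/2, i)`. -/
def cc (ι : ℕ → A) (ν : ℕ) : ℕ → A
  | 0 => 1
  | (i + 1) => (2 * ν - 1 - 2 * i) * ι (2 * (i + 1)) * cc ι ν i

/-- `∑ binom(m,i) binom(ν - 1/2, i) = binom(ν - 1/2 + m, m)`. -/
def vv (ι : ℕ → A) (ν m : ℕ) : A := ∑ i ∈ range (m + 1), (m.choose i : A) * cc ι ν i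

theorem Ctx.cc_succ (h : Ctx p N ι) {ν i : ℕ} (hi : i + 1 < p) :
    2 * ((i : A) + 1) * cc ι ν (i + 1) = (2 * ν - 1 - 2 * i) * cc ι ν i := by
  have h1 : ((2 * (i + 1) : ℕ) : A) * ι (2 * (i + 1)) = 1 :=
    h.inv _ (h.ndvd_mul h.ndvd2 (h.ndvd (by omega) hi))
  push_cast at h1
  rw [cc]
  linear_combination ((2 * (ν : A) - 1 - 2 * i) * cc ι ν i) * h1

theorem choose_cast (n k : ℕ) :
    ((k : A) + 1) * (n.choose (k + 1) : A) = ((n : A) - k) * (n.choose k : A) := by
  rcases Nat.lt_or_ge n k with h | h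
  · rw [Nat.choose_eq_zero_of_lt h, Nat.choose_eq_zero_of_lt (by omega)]; simp
  · have := Nat.choose_succ_right_eq n k
    have h2 := congrArg (Nat.cast : ℕ → A) this
    rw [Nat.cast_mul, Nat.cast_mul, Nat.cast_sub h] at h2
    push_cast at h2
    linear_combination h2

theorem Ctx.vv_succ (h : Ctx p N ι) {ν m : ℕ} (hm : m + 1 < p) :
    2 * ((m : A) + 1) * vv ι ν (m + 1) = (2 * ν + 1 + 2 * m) * vv ι ν m := by
  have e1 : vv ι ν (m + 1) = vv ι ν m + ∑ i ∈ range (m + 1), (m.choose i : A) * cc ι ν (i + 1) := by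
    rw [vv, vv, sum_range_succ']
    simp only [Nat.choose_succ_succ, Nat.cast_add, add_mul, sum_add_distrib, Nat.choose_zero_right,
      Nat.cast_one, one_mul]
    have : ∑ i ∈ range (m + 1), (m.choose i : A) * cc ι ν i
        = ∑ i ∈ range (m + 1), (m.choose (i + 1) : A) * cc ι ν (i + 1) + cc ι ν 0 := by
      rw [sum_range_succ', sum_range_succ]
      simp
    rw [this]; ring
  have tel : ∑ i ∈ range (m + 1), (((i + 1 : ℕ) : A) * (m.choose (i + 1) : A) * cc ι ν (i + 1)
      - ((i : ℕ) : A) * (m.choose i : A) * cc ι ν i) = 0 := by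
    rw [sum_range_sub (fun i => ((i : ℕ) : A) * (m.choose i : A) * cc ι ν i)]
    simp
  rw [e1]
  have e2 : (2 * ((m : A) + 1)) * (vv ι ν m + ∑ i ∈ range (m + 1), (m.choose i : A) * cc ι ν (i + 1))
      - (2 * ν + 1 + 2 * m) * vv ι ν m
      = 2 * ∑ i ∈ range (m + 1), (((i + 1 : ℕ) : A) * (m.choose (i + 1) : A) * cc ι ν (i + 1)
      - ((i : ℕ) : A) * (m.choose i : A) * cc ι ν i) := by
    rw [vv, mul_add, mul_sum, mul_sum, mul_sum, mul_sum, ← sum_add_distrib, ← sum_sub_distrib]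
    refine sum_congr rfl (fun i hi => ?_)
    rw [mem_range] at hi
    have h1 := choose_cast (A := A) m i
    have h2 := h.cc_succ (ν := ν) (i := i) (by omega)
    push_cast
    linear_combination (m.choose i : A) * h2 - 2 * cc ι ν (i + 1) * h1
  rw [tel, mul_zero] at e2
  exact sub_eq_zero.mp e2

/-- The sum side. -/
def ff (ι : ℕ → A) (ν m : ℕ) : A := (-1) ^ m * (ν.choose m : A) * vv ι ν m

theorem sum_ff (ν : ℕ) (w : A) :
    ∑ m ∈ range (ν + 1), ff ι ν m * w ^ m =
      ∑ i ∈ range (ν + 1), (ν.choose i : A) * cc ι ν i * (-w) ^ i * (1 - w) ^ (ν - i) := by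
  have h1 : ∀ m ∈ range (ν + 1), ff ι ν m * w ^ m =
      ∑ i ∈ range (ν + 1), (ν.choose m : A) * (m.choose i : A) * cc ι ν i * (-w) ^ m := by
    intro m hm
    rw [mem_range] at hm
    have e2 : (-w) ^ m = (-1) ^ m * w ^ m := by rw [← mul_pow]; simp
    rw [ff, vv, mul_sum, sum_mul]
    have hsub : range (m + 1) ⊆ range (ν + 1) := range_subset_range.mpr (by omega)
    rw [← sum_subset hsub]
    · refine sum_congr rfl (fun i _ => ?_)
      rw [e2]; ring
    · intro i _ hi
      rw [mem_range, not_lt] at hi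
      rw [Nat.choose_eq_zero_of_lt (show m < i by omega)]; simp
  rw [sum_congr rfl h1, sum_comm]
  refine sum_congr rfl (fun i hi => ?_)
  rw [mem_range] at hi
  have e : ν + 1 = i + (ν - i + 1) := by omega
  rw [e, sum_range_add]
  have z : ∑ x ∈ range i, (ν.choose x : A) * (x.choose i : A) * cc ι ν i * (-w) ^ x = 0 := by
    refine sum_eq_zero (fun x hx => ?_)
    rw [mem_range] at hx
    rw [Nat.choose_eq_zero_of_lt hx]; simp
  rw [z, zero_add]
  have e3 : (1 - w) ^ (ν - i) = ∑ j ∈ range (ν - i + 1), (-w) ^ j * ((ν - i).choose j : A) := by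
    rw [show (1 : A) - w = -w + 1 by ring, add_pow]
    refine sum_congr rfl (fun j _ => ?_)
    rw [one_pow, mul_one]
  rw [e3, mul_sum]
  refine sum_congr rfl (fun j hj => ?_)
  rw [mem_range] at hj
  have h2 := Nat.choose_mul (n := ν) (k := i + j) (s := i) (by omega)
  rw [Nat.add_sub_cancel_left] at h2
  have h3 := congrArg (Nat.cast : ℕ → A) h2
  push_cast at h3
  rw [pow_add]
  linear_combination (cc ι ν i * (-w) ^ i * (-w) ^ j) * h3

theorem Ctx.choose_cc (h : Ctx p N ι) {ν : ℕ} (hν : ν < p) :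
    ∀ i ≤ ν, (ν.choose i : A) * cc ι ν i = ((2 * ν).choose (2 * i) : A) * ((2 * i).choose i : A) * ι 4 ^ i := by
  intro i
  induction i with
  | zero => intro _; simp [cc]
  | succ i ih =>
    intro hi
    have ih' := ih (by omega)
    have h1 := choose_cast (A := A) ν i
    have h2 := h.cc_succ (ν := ν) (i := i) (by omega)
    have h3 := choose_cast (A := A) (2 * ν) (2 * i)
    have h4 := choose_cast (A := A) (2 * ν) (2 * i + 1)
    have h5 : ((i : A) + 1) * ((2 * (i + 1)).choose (i + 1) : A) = 2 * (2 * i + 1) * ((2 * i).choose i : A) := by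
      have := Nat.succ_mul_centralBinom_succ i
      rw [Nat.centralBinom_eq_two_mul_choose, Nat.centralBinom_eq_two_mul_choose] at this
      exact_mod_cast congrArg (Nat.cast : ℕ → A) this
    have h44 : (4 : A) * ι 4 = 1 := by simpa using h.inv 4 h.ndvd4
    have hcan : ¬ p ∣ (2 * (i + 1)) * (2 * (i + 1)) := by
      have := h.ndvd_mul h.ndvd2 (h.ndvd (n := i + 1) (by omega) (by omega))
      exact h.ndvd_mul this this
    apply h.cancel hcan
    push_cast at h3 h4 ⊢
    have e0 : 2 * i + 1 + 1 = 2 * (i + 1) := by ring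
    rw [e0] at h4
    rw [pow_succ]
    generalize (ν.choose (i + 1) : A) = a1 at *
    generalize (ν.choose i : A) = a0 at *
    generalize cc ι ν (i + 1) = c1 at *
    generalize cc ι ν i = c0 at *
    generalize ((2 * ν).choose (2 * (i + 1)) : A) = b2 at *
    generalize ((2 * ν).choose (2 * i + 1) : A) = b1 at *
    generalize ((2 * ν).choose (2 * i) : A) = b0 at *
    generalize ((2 * (i + 1)).choose (i + 1) : A) = d1 at *
    generalize ((2 * i).choose i : A) = d0 at *
    generalize ι 4 ^ i = q at *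
    generalize ι 4 = q4 at *
    linear_combination (4 * ((i : A) + 1) * c1) * h1 + (2 * ((ν : A) - i) * a0) * h2
      + (2 * ((ν : A) - i) * (2 * ν - 1 - 2 * i)) * ih'
      - (b2 * ((i : A) + 1) * d1 * ((i : A) + 1) * q) * h44
      - (((i : A) + 1) * b2 * q) * h5
      - (d0 * q * (2 * (i : A) + 1)) * h4
      - (d0 * q * (2 * (ν : A) - (2 * i + 1))) * h3

/-- The sequence of the squares `binom(-1/4,k)²`. -/
structure Tseq (p : ℕ) (t : ℕ → A) : Prop where
  zero : t 0 = 1
  succ : ∀ k, k + 1 < p → 16 * ((k : A) + 1) ^ 2 * t (k + 1) = (4 * k + 1) ^ 2 * t k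

theorem Ctx.t_eq (h : Ctx p N ι) {t : ℕ → A} (ht : Tseq p t) {ν m : ℕ} (hν : ν < p)
    (hm : 4 * ν + 1 = m * p) : ∀ k ≤ ν, t k = ff ι ν k := by
  intro k
  induction k with
  | zero => intro _; rw [ht.zero]; simp [ff, vv, cc]
  | succ k ih =>
    intro hk
    have ih' := ih (by omega)
    have h1 := ht.succ k (by omega)
    have h2 := h.vv_succ (ν := ν) (m := k) (by omega)
    have h3 := choose_cast (A := A) ν k
    have h4 : 4 * (ν : A) + 1 = m * p := by exact_mod_cast congrArg (Nat.cast : ℕ → A) hm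
    have hcan : ¬ p ∣ (2 * 2 * (k + 1)) * (2 * 2 * (k + 1)) := by
      have := h.ndvd_mul (h.ndvd_mul h.ndvd2 h.ndvd2) (h.ndvd (n := k + 1) (by omega) (by omega))
      exact h.ndvd_mul this this
    apply h.cancel hcan
    push_cast
    rw [ih'] at h1
    rw [ff] at h1 ⊢
    rw [pow_succ]
    generalize vv ι ν (k + 1) = v1 at *
    generalize vv ι ν k = v0 at *
    generalize (ν.choose (k + 1) : A) = c1 at *
    generalize (ν.choose k : A) = c0 at *
    generalize ((-1 : A)) ^ k = s at *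
    have hsq := h.sq
    linear_combination h1 + (16 * s * ((k : A) + 1) * v1) * h3
      + (8 * s * ((ν : A) - k) * c0) * h2
      + (s * c0 * v0 * (4 * (ν : A) + 1 + m * p)) * h4 + (s * c0 * v0 * m ^ 2) * hsq

theorem Ctx.t_zero (h : Ctx p N ι) {t : ℕ → A} (ht : Tseq p t) {ν m : ℕ}
    (hm : 4 * ν + 1 = m * p) : ∀ k, ν < k → k < p → t k = 0 := by
  intro k hk
  induction k, hk using Nat.le_induction with
  | base =>
    intro hk
    have h1 := ht.succ ν hk
    have h4 : 4 * (ν : A) + 1 = m * p := by exact_mod_cast congrArg (Nat.cast : ℕ → A) hm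
    have hcan : ¬ p ∣ (2 * 2 * (ν + 1)) * (2 * 2 * (ν + 1)) := by
      have := h.ndvd_mul (h.ndvd_mul h.ndvd2 h.ndvd2) (h.ndvd (n := ν + 1) (by omega) (by omega))
      exact h.ndvd_mul this this
    apply h.cancel hcan
    push_cast
    rw [h4] at h1
    have hsq := h.sq
    linear_combination h1 + (m ^ 2 * t ν) * hsq
  | succ k hk ih =>
    intro hk'
    have h1 := ht.succ k hk'
    rw [ih (by omega)] at h1
    have hcan : ¬ p ∣ (2 * 2 * (k + 1)) * (2 * 2 * (k + 1)) := by
      have := h.ndvd_mul (h.ndvd_mul h.ndvd2 h.ndvd2) (h.ndvd (n := k + 1) (by omega) (by omega))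
      exact h.ndvd_mul this this
    apply h.cancel hcan
    push_cast
    linear_combination h1

theorem Ctx.star (h : Ctx p N ι) {t : ℕ → A} (ht : Tseq p t) {ν m : ℕ} (hν : ν < p)
    (hm : 4 * ν + 1 = m * p) (w : A) :
    ∑ k ∈ range p, t k * w ^ k = ∑ i ∈ range (ν + 1), ((2 * ν).choose (2 * i) : A)
      * ((2 * i).choose i : A) * (-(ι 4 * w)) ^ i * (1 - w) ^ (ν - i) := by
  have e : p = (ν + 1) + (p - (ν + 1)) := by omega
  rw [e, sum_range_add]
  have z : ∑ x ∈ range (p - (ν + 1)), t (ν + 1 + x) * w ^ (ν + 1 + x) = 0 := by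
    refine sum_eq_zero (fun x hx => ?_)
    rw [mem_range] at hx
    rw [h.t_zero ht hm _ (by omega) (by omega), zero_mul]
  rw [z, add_zero]
  have e1 : ∑ k ∈ range (ν + 1), t k * w ^ k = ∑ k ∈ range (ν + 1), ff ι ν k * w ^ k := by
    refine sum_congr rfl (fun k hk => ?_)
    rw [mem_range] at hk
    rw [h.t_eq ht hν hm k (by omega)]
  rw [e1, sum_ff]
  refine sum_congr rfl (fun i hi => ?_)
  rw [mem_range] at hi
  rw [h.choose_cc hν i (by omega)]
  have : (-(ι 4 * w)) ^ i = ι 4 ^ i * (-w) ^ i := by rw [← mul_pow]; congr 1; ring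
  rw [this]; ring

/-- Passage to the central coefficient of a quadratic polynomial. -/
theorem Ctx.star_tri (h : Ctx p N ι) {t : ℕ → A} (ht : Tseq p t) {ν m : ℕ} (hν : ν < p)
    (hm : 4 * ν + 1 = m * p) {w a₀ b₀ c₀ κ : A} (hb : b₀ ^ 2 = κ * (1 - w))
    (hac : a₀ * c₀ = κ * (-(ι 4 * w))) :
    ((Polynomial.C a₀ + Polynomial.C b₀ * Polynomial.X + Polynomial.C c₀ * Polynomial.X ^ 2)
      ^ (2 * ν)).coeff (2 * ν) = κ ^ ν * ∑ k ∈ range p, t k * w ^ k := by
  rw [coeff_tri, h.star ht hν hm, mul_sum]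
  have hsub : range (ν + 1) ⊆ range (2 * ν + 1) := range_subset_range.mpr (by omega)
  rw [← sum_subset hsub]
  · refine sum_congr rfl (fun i hi => ?_)
    rw [mem_range] at hi
    have e1 : b₀ ^ (2 * ν - 2 * i) = κ ^ (ν - i) * (1 - w) ^ (ν - i) := by
      rw [← Nat.mul_sub, pow_mul, hb, mul_pow]
    have e2 : κ ^ ν = κ ^ i * κ ^ (ν - i) := by rw [← pow_add]; congr 1; omega
    rw [e1, hac, e2, mul_pow]; ring
  · intro i hi hi'
    rw [mem_range, not_lt] at hi'
    rw [Nat.choose_eq_zero_of_lt (show 2 * ν < 2 * i by omega)]; simp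

end Pool.Agent.H61.Sun
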