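import Mathlib
import Pool.Agent.H61.Sun.Star

set_option autoImplicit false
set_option linter.unusedSectionVars false

namespace Pool.Agent.H61.Sun

open Finset

variable {A : Type*} [CommRing A] {p N : ℕ} {ι : ℕ → A}

/-- The quadratic data. -/
structure Quad (a b r r' : A) : Prop where
  add : a + b = 1
  mul : a * b = 2
  br : b * r = 1
  ar : a * r' = 1

theorem Quad.a_eq {a b r r' : A} (q : Quad a b r r') : a = 2 * r := by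
  linear_combination (-a) * q.br + r * q.mul

theorem Quad.b_eq {a b r r' : A} (q : Quad a b r r') : b = 2 * r' := by
  linear_combination (-b) * q.ar + r' * q.mul

theorem Quad.a4 {a b r r' : A} (q : Quad a b r r') : a ^ 4 = 2 - 3 * a := by
  have ha2 : a ^ 2 = a - 2 := by linear_combination a * q.add - q.mul
  linear_combination (a ^ 2 + a - 1) * ha2

theorem Quad.b4 {a b r r' : A} (q : Quad a b r r') : b ^ 4 = 3 * a - 1 := by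
  have hb2 : b ^ 2 = b - 2 := by linear_combination b * q.add - q.mul
  linear_combination (b ^ 2 + b - 1) * hb2 - 3 * q.add

theorem Quad.r8 {a b r r' : A} (q : Quad a b r r') : 1 - r ^ 4 + 16 * r ^ 8 = 0 := by
  have h1 : b ^ 8 - b ^ 4 + 16 = 0 := by
    have h2 := q.a4
    have h3 := q.b4
    have h4 : a ^ 4 * b ^ 4 = 16 := by
      rw [← mul_pow, q.mul]; norm_num
    linear_combination (b ^ 4) * h3 + (b ^ 4) * h2 - h4
  have rb : b ^ 4 * r ^ 4 = 1 := by rw [← mul_pow, q.br, one_pow]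
  linear_combination (r ^ 8) * h1 - (b ^ 4 * r ^ 4 + 1 - r ^ 4) * rb

theorem Ctx.plus (h : Ctx p N ι) {a b r r' : A} (q : Quad a b r r') {t : ℕ → A} (ht : Tseq p t)
    {ν m : ℕ} (hν : ν < p) (hm : 4 * ν + 1 = m * p) :
    ∑ k ∈ range p, t k * 64 ^ k = (b ^ 4) ^ (2 * ν) * DD (2 * ν) (-(a ^ 4 * r ^ 4)) := by
  have h4 : (4 : A) * ι 4 = 1 := by simpa using h.inv 4 h.ndvd4
  have ha : a ^ 4 = 16 * r ^ 4 := by rw [q.a_eq]; ring
  have hr8 := q.r8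
  have k := h.star_tri ht hν hm (w := 64) (a₀ := 1) (b₀ := 1 + (-(a ^ 4 * r ^ 4)))
    (c₀ := -(a ^ 4 * r ^ 4)) (κ := r ^ 8)
    (by rw [ha]; linear_combination (1 + r ^ 4 + 16 * r ^ 8) * hr8)
    (by rw [ha]; linear_combination (16 * r ^ 8) * h4)
  rw [coeff_sq] at k
  have e : (b ^ 4) ^ (2 * ν) * (r ^ 8) ^ ν = 1 := by
    have : (r ^ 8) ^ ν = (r ^ 4) ^ (2 * ν) := by rw [← pow_mul, ← pow_mul]; congr 1; ring
    rw [this, ← mul_pow, ← mul_pow, q.br]; simp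
  rw [DD, k]
  linear_combination (-∑ k ∈ range p, t k * 64 ^ k) * e

theorem Ctx.minus (h : Ctx p N ι) {a b r r' : A} (q : Quad a b r r') {t : ℕ → A} (ht : Tseq p t)
    {ν m : ℕ} (hν : ν < p) (hm : 4 * ν + 1 = m * p) :
    ∑ k ∈ range p, t k * (ι 4 ^ 3) ^ k = (-(b ^ 4 * r' ^ 4)) ^ ν * BB ι (2 * ν) (r ^ 4) := by
  have h4 : (4 : A) * ι 4 = 1 := by simpa using h.inv 4 h.ndvd4
  have ha : a ^ 4 = 16 * r ^ 4 := by rw [q.a_eq]; ring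
  have hr8 := q.r8
  have k := h.star_tri ht hν hm (w := ι 4 ^ 3) (a₀ := ι 4 * r ^ 4) (b₀ := 1 - 2 * (ι 4 * r ^ 4))
    (c₀ := ι 4 * r ^ 4) (κ := -(a ^ 4 * r ^ 4))
    (by rw [ha]; linear_combination hr8 - (r ^ 4 + 4 * (ι 4) ^ 2 * r ^ 8) * h4)
    (by rw [ha]; linear_combination (-(ι 4 ^ 2 * r ^ 8) * (4 * ι 4 + 1)) * h4)
  rw [coeff_shift] at k
  have e1 : BB ι (2 * ν) (r ^ 4) = ∑ k ∈ range (2 * ν + 1), ((2 * ν).choose k : A)
      * ((2 * k).choose k : A) * (-(ι 4 * r ^ 4)) ^ k * 1 ^ (2 * ν - k) := by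
    rw [BB]
    refine sum_congr rfl (fun k _ => ?_)
    have e2 : (-(ι 4 * r ^ 4)) ^ k = (ι 4) ^ k * (-(r ^ 4)) ^ k := by rw [← mul_pow]; congr 1; ring
    rw [gg, Nat.centralBinom_eq_two_mul_choose, e2]; simp only [one_pow]; ring
  have ra : a ^ 4 * r' ^ 4 = 1 := by rw [← mul_pow, q.ar, one_pow]
  have rb : b ^ 4 * r ^ 4 = 1 := by rw [← mul_pow, q.br, one_pow]
  have lm : (-(b ^ 4 * r' ^ 4)) ^ ν * (-(a ^ 4 * r ^ 4)) ^ ν = 1 := by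
    rw [← mul_pow]
    have : (-(b ^ 4 * r' ^ 4)) * (-(a ^ 4 * r ^ 4)) = 1 := by
      linear_combination (a ^ 4 * r' ^ 4) * rb + ra
    rw [this, one_pow]
  rw [e1, k]
  linear_combination (-∑ k ∈ range p, t k * (ι 4 ^ 3) ^ k) * lm

theorem Ctx.final1 (h : Ctx p N ι) {a b r r' e₁ e₂ : A} (q : Quad a b r r')
    (ha : a ^ (2 * N) = 1 + p * e₁) (hb : b ^ (2 * N) = 1 + p * e₂)
    {t : ℕ → A} (ht : Tseq p t) {ν : ℕ} (hν : 4 * ν + 1 = p) :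
    let s := ∑ k ∈ range (N + 1), gg ι k * gg ι (N - k) * (b ^ 2) ^ k * (r ^ 2) ^ (N - k)
    ∑ k ∈ range p, t k * 64 ^ k = s ∧ ∑ k ∈ range p, t k * (ι 4 ^ 3) ^ k = (-1) ^ ν * s := by
  intro s
  have V := h.vals q.add q.mul q.br q.ar ha hb
  have hs : SS ι N (a ^ 4) = s := V.Gs.symm
  rw [hs] at V
  have hsq := h.sq
  have hN := h.hN
  have h2ν : 2 * ν = N := by omega
  have hνp : ν < p := by omega
  have hν1 : 4 * ν + 1 = 1 * p := by omega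
  have hsg : (-1 : A) ^ N = 1 := by rw [← h2ν, pow_mul]; simp
  have hb4 : (b ^ 4) ^ N = 1 + 2 * p * e₂ := by
    have : (b ^ 4) ^ N = (b ^ (2 * N)) ^ 2 := by rw [← pow_mul, ← pow_mul]; congr 1; ring
    rw [this, hb]; linear_combination (e₂ ^ 2) * hsq
  constructor
  · rw [h.plus q ht hνp hν1, h2ν, h.DD_eq, V.Slam, V.Tlam, hb4]
    linear_combination (-4 * e₂ ^ 2 * s) * hsq
  · rw [h.minus q ht hνp hν1, h2ν, h.BB_eq, V.Sy, V.Ty, hsg]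
    have e1 : (b ^ 4) ^ ν = 1 + p * e₂ := by rw [← hb, ← pow_mul]; congr 1; omega
    have e2 : (r' ^ 4) ^ ν = 1 - p * e₁ := by
      have e3 : (a ^ 4) ^ ν = 1 + p * e₁ := by rw [← ha, ← pow_mul]; congr 1; omega
      have e4 : (a ^ 4) ^ ν * (r' ^ 4) ^ ν = 1 := by rw [← mul_pow, ← mul_pow, q.ar]; simp
      rw [e3] at e4
      linear_combination (1 - p * e₁) * e4 + (e₁ ^ 2 * (r' ^ 4) ^ ν) * hsq
    rw [neg_pow, mul_pow, e1, e2]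
    linear_combination (s * (-1) ^ ν * (e₂ * e₁ - e₂ ^ 2 - e₁ ^ 2 - p * e₂ * e₁ ^ 2
      + p * e₂ ^ 2 * e₁)) * hsq

theorem Ctx.final3 (h : Ctx p N ι) {a b r r' e₁ e₂ : A} (q : Quad a b r r')
    (ha : a ^ (2 * N) = 1 + p * e₁) (hb : b ^ (2 * N) = 1 + p * e₂)
    {t : ℕ → A} (ht : Tseq p t) {ν : ℕ} (hν : 4 * ν + 1 = 3 * p) :
    let s := ∑ k ∈ range (N + 1), gg ι k * gg ι (N - k) * (b ^ 2) ^ k * (r ^ 2) ^ (N - k)
    ∑ k ∈ range p, t k * 64 ^ k = 3 * (2 * a - 1) * s ∧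
      8 * ∑ k ∈ range p, t k * (ι 4 ^ 3) ^ k = (-1) ^ ν * (-1) ^ N * (3 * (2 * a - 1)) * s := by
  intro s
  have V := h.vals q.add q.mul q.br q.ar ha hb
  have hs : SS ι N (a ^ 4) = s := V.Gs.symm
  rw [hs] at V
  have hsq := h.sq
  have hN := h.hN
  have h2ν : 2 * ν = p + N := by omega
  have hνp : ν < p := by omega
  have ra : a ^ 4 * r' ^ 4 = 1 := by rw [← mul_pow, q.ar, one_pow]
  have rb : b ^ 4 * r ^ 4 = 1 := by rw [← mul_pow, q.br, one_pow]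
  have hsg : (-1 : A) ^ N * (-1) ^ N = 1 := by rw [← mul_pow]; simp
  have ha4 : (a ^ 4) ^ N = 1 + 2 * p * e₁ := by
    have : (a ^ 4) ^ N = (a ^ (2 * N)) ^ 2 := by rw [← pow_mul, ← pow_mul]; congr 1; ring
    rw [this, ha]; linear_combination (e₁ ^ 2) * hsq
  have hb4 : (b ^ 4) ^ N = 1 + 2 * p * e₂ := by
    have : (b ^ 4) ^ N = (b ^ (2 * N)) ^ 2 := by rw [← pow_mul, ← pow_mul]; congr 1; ring
    rw [this, hb]; linear_combination (e₂ ^ 2) * hsq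
  have hr4 : (r ^ 4) ^ N = 1 - 2 * p * e₂ := by
    have h1 : (b ^ 4) ^ N * (r ^ 4) ^ N = 1 := by rw [← mul_pow, rb, one_pow]
    rw [hb4] at h1
    linear_combination (1 - 2 * p * e₂) * h1 + (4 * e₂ ^ 2 * (r ^ 4) ^ N) * hsq
  have hr'2 : (r') ^ (2 * N) = 1 - p * e₁ := by
    have h1 : a ^ (2 * N) * r' ^ (2 * N) = 1 := by rw [← mul_pow, q.ar, one_pow]
    rw [ha] at h1
    linear_combination (1 - p * e₁) * h1 + (e₁ ^ 2 * r' ^ (2 * N)) * hsq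
  constructor
  · have e1 : (b ^ 4) ^ (p + N) = b ^ 4 * (1 + 6 * p * e₂) := by
      have : (b ^ 4) ^ (p + N) = b ^ 4 * ((b ^ 4) ^ N) ^ 3 := by
        rw [show p + N = 1 + N * 3 by omega, pow_add, pow_one, pow_mul]
      rw [this, hb4]
      linear_combination (b ^ 4 * (12 * e₂ ^ 2 + 8 * p * e₂ ^ 3)) * hsq
    have e2 : (-(a ^ 4 * r ^ 4)) ^ (p + N) = -(a ^ 4 * r ^ 4) * ((-1) ^ N * (1 + 6 * p * e₁ - 6 * p * e₂)) := by
      have h3 : (-(a ^ 4 * r ^ 4)) ^ (p + N) = -(a ^ 4 * r ^ 4) * ((-(a ^ 4 * r ^ 4)) ^ N) ^ 3 := by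
        rw [← pow_mul, ← pow_succ']; congr 1; omega
      have h4 : (-(a ^ 4 * r ^ 4)) ^ N = (-1) ^ N * (1 + 2 * p * e₁ - 2 * p * e₂) := by
        rw [neg_pow, mul_pow, ha4, hr4]; linear_combination (-(-1) ^ N * 4 * e₁ * e₂) * hsq
      rw [h3, h4]
      generalize ((-1 : A)) ^ N = σ at *
      linear_combination (-(a ^ 4 * r ^ 4) * σ * (1 + 2 * p * e₁ - 2 * p * e₂) ^ 3) * hsg
        - (a ^ 4 * r ^ 4 * σ * (12 * (e₁ - e₂) ^ 2 + 8 * p * (e₁ - e₂) ^ 3)) * hsq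
    have lm : (-(a ^ 4 * r ^ 4)) * (-(b ^ 4 * r' ^ 4)) = 1 := by
      linear_combination (a ^ 4 * r' ^ 4) * rb + ra
    have hb4' := q.b4
    have ha4' := q.a4
    rw [h.plus q ht hνp hν, h2ν, h.DD_three lm, V.Slam, V.Tlam, V.Smu, V.Tmu, e1, e2]
    generalize ((-1 : A)) ^ N = σ at *
    linear_combination (-(b ^ 4 * e₂ * s * a ^ 4 * r ^ 4 * σ ^ 2 * e₁ * 36) - b ^ 4 * e₂ ^ 2 * s * 36
      + b ^ 4 * e₂ ^ 2 * s * a ^ 4 * r ^ 4 * σ ^ 2 * 36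
      + b ^ 4 * s * a ^ 4 * r ^ 4 * σ ^ 2 * e₁ ^ 2 * 36
      + b ^ 4 * p * e₂ * s * a ^ 4 * r ^ 4 * σ ^ 2 * e₁ ^ 2 * 216
      - b ^ 4 * p * e₂ ^ 2 * s * a ^ 4 * r ^ 4 * σ ^ 2 * e₁ * 216) * hsq
      - (b ^ 4 * a ^ 4 * r ^ 4 * s) * hsg - (a ^ 4 * s) * rb + s * hb4' - s * ha4'
  · have e1 : (b ^ 4) ^ ν = b ^ 2 * (1 + 3 * p * e₂) := by
      have : (b ^ 4) ^ ν = b ^ 2 * (b ^ (2 * N)) ^ 3 := by
        rw [← pow_mul, ← pow_mul, ← pow_add]; congr 1; omega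
      rw [this, hb]
      linear_combination (b ^ 2 * (3 * e₂ ^ 2 + p * e₂ ^ 3)) * hsq
    have e2 : (r' ^ 4) ^ ν = r' ^ 2 * (1 - 3 * p * e₁) := by
      have : (r' ^ 4) ^ ν = r' ^ 2 * (r' ^ (2 * N)) ^ 3 := by
        rw [← pow_mul, ← pow_mul, ← pow_add]; congr 1; omega
      rw [this, hr'2]
      linear_combination (r' ^ 2 * (3 * e₁ ^ 2 - p * e₁ ^ 3)) * hsq
    have e3 : (r ^ 4) ^ p = r ^ 4 * (1 - 4 * p * e₂) := by
      have : (r ^ 4) ^ p = r ^ 4 * ((r ^ 4) ^ N) ^ 2 := by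
        conv_lhs => rw [show p = 1 + N * 2 by omega, pow_add, pow_one, pow_mul]
      rw [this, hr4]
      linear_combination (4 * r ^ 4 * e₂ ^ 2) * hsq
    have k := h.BB_three (r ^ 4)
    rw [V.Sy, V.Ty, V.Ry, e3] at k
    have hbr : 4 * (b ^ 2 * r' ^ 2) * (2 - r ^ 4) = 3 * (2 * a - 1) := by
      have h1 := q.b_eq
      have h2 : 4 * r' ^ 2 = b ^ 2 := by rw [h1]; ring
      linear_combination (b ^ 2 * (2 - r ^ 4)) * h2 - rb + 2 * q.b4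
    rw [h.minus q ht hνp hν, h2ν, neg_pow, mul_pow, e1, e2]
    have e4 : 2 * BB ι (p + N) (r ^ 4) = (2 - r ^ 4) * (1 + 3 * p * e₁ - 3 * p * e₂) * ((-1) ^ N * s) := by
      rw [k]
      linear_combination (s * e₂ * e₁ * r ^ 4 * (-1) ^ N * 12 + s * e₂ ^ 2 * r ^ 4 * (-1) ^ N * 4) * hsq
    generalize ((-1 : A)) ^ N = σ at *
    generalize ((-1 : A)) ^ ν = τ at *
    linear_combination (4 * τ * (b ^ 2 * (1 + 3 * p * e₂) * (r' ^ 2 * (1 - 3 * p * e₁)))) * e4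
      + (τ * σ * s) * hbr
      + (τ * b ^ 2 * r' ^ 2 * σ * s * (r ^ 4 - 2) * (-36 * e₂ * e₁ + 36 * e₂ ^ 2 + 36 * e₁ ^ 2
        + 108 * p * e₂ * e₁ ^ 2 - 108 * p * e₂ ^ 2 * e₁)) * hsq

end Pool.Agent.H61.Sun
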