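import Mathlib

set_option autoImplicit false

namespace Pool.Agent.H61.Sun

open PowerSeries

section Theta

variable {R : Type*} [CommRing R]

/-- The operator `2 X d/dX` on power series. -/
noncomputable def th (F : R⟦X⟧) : R⟦X⟧ := 2 * X * (derivative R F)

theorem th_add (F G : R⟦X⟧) : th (F + G) = th F + th G := by
  simp only [th, map_add]; ring

theorem th_sub (F G : R⟦X⟧) : th (F - G) = th F - th G := by
  simp only [th, map_sub]; ring

theorem th_mul (F G : R⟦X⟧) : th (F * G) = th F * G + F * th G := by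
  simp only [th, Derivation.leibniz, smul_eq_mul]; ring

theorem th_one : th (1 : R⟦X⟧) = 0 := by
  simp only [th, derivative_one, mul_zero]

theorem th_C (c : R) : th (C c : R⟦X⟧) = 0 := by
  simp only [th, derivative_C, mul_zero]

theorem th_X : th (X : R⟦X⟧) = 2 * X := by
  simp only [th, derivative_X, mul_one]

theorem th_sq (F : R⟦X⟧) : th (F ^ 2) = 2 * F * th F := by
  rw [pow_two, th_mul]; ring

theorem th_pow4 (F : R⟦X⟧) : th (F ^ 4) = 4 * F ^ 3 * th F := by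
  rw [show F ^ 4 = (F ^ 2) ^ 2 by ring, th_sq, th_sq]; ring

theorem coeff_th (F : R⟦X⟧) (n : ℕ) : coeff n (th F) = 2 * n * coeff n F := by
  rcases n with _ | n
  · simp [th, mul_assoc]
  · have : th F = X * (C 2 * derivative R F) := by
      simp only [th, map_ofNat]; ring
    rw [this, coeff_succ_X_mul, coeff_C_mul, coeff_derivative]
    push_cast; ring

/-- Logarithmic rule for an inverse. -/
theorem th_inv {D w : R⟦X⟧} (h : D * w = 1) : th w = - (th D * w ^ 2) := by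
  have h1 : th D * w + D * th w = 0 := by rw [← th_mul, h, th_one]
  calc th w = (D * w) * th w := by rw [h, one_mul]
    _ = w * (D * th w) := by ring
    _ = w * (- (th D * w)) := by rw [eq_neg_of_add_eq_zero_right h1]
    _ = _ := by ring

theorem exists_inv (D : R⟦X⟧) (h : constantCoeff D = 1) :
    ∃ w : R⟦X⟧, D * w = 1 ∧ constantCoeff w = 1 := by
  have hu : IsUnit D := by rw [isUnit_iff_constantCoeff, h]; exact isUnit_one
  obtain ⟨w, hw⟩ := hu.exists_right_inv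
  refine ⟨w, hw, ?_⟩
  have := congrArg constantCoeff hw
  rw [map_mul, h, one_mul, map_one] at this
  exact this

end Theta

section Identities

theorem add_key {S : Type*} [CommRing S] (X t u1 u2 v1 v2 : S)
    (h1 : v1^2 = 1 - t*X*u1^2 + X^2*u1^4) (h2 : v2^2 = 1 - t*X*u2^2 + X^2*u2^4) :
    ((1 + X^2*u1^2*u2^2)*(v1*v2 - t*X*u1*u2) + 2*X*u1*u2*(X*u1^2 + X*u2^2))^2 =
     (1 - X^2*u1^2*u2^2)^4 - t*X*(u1*v2+u2*v1)^2*(1 - X^2*u1^2*u2^2)^2
      + X^2*(u1*v2+u2*v1)^4 := by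
  grind

end Identities

section Curve

variable {R : Type*} [CommRing R]

/-- A formal point: `(u, v)` on the quartic `v² = 1 - T X u² + X² u⁴` with
`(u + 2 X u') = c v G`. -/
structure Good (T : R) (G : R⟦X⟧) (c : R) (u v : R⟦X⟧) : Prop where
  curve : v ^ 2 = 1 - C T * X * u ^ 2 + X ^ 2 * u ^ 4
  cv : constantCoeff v = 1
  ode : u + th u = C c * v * G

variable {T : R} {G : R⟦X⟧}

theorem Good.zero : Good T G 0 0 1 where
  curve := by simp
  cv := by simp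
  ode := by simp [th]

theorem Good.one {f : R⟦X⟧} (hf : f = 1 - C T * X + X ^ 2) (hG : G ^ 2 * f = 1)
    (hG0 : constantCoeff G = 1) : Good T G 1 1 (f * G) where
  curve := by
    calc (f * G) ^ 2 = f * (G ^ 2 * f) := by ring
      _ = _ := by rw [hG, hf]; ring
  cv := by
    rw [map_mul, hG0, hf]; simp
  ode := by
    rw [th_one, map_one]
    linear_combination -hG

theorem Good.neg {c : R} {u v : R⟦X⟧} (h : Good T G c u v) : Good T G (-c) (-u) v where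
  curve := by rw [h.curve]; ring
  cv := h.cv
  ode := by
    have h1 : th (-u) = - th u := by
      simp [th]
    rw [h1, map_neg]
    linear_combination -h.ode

theorem two_ne_zero' [CharZero R] : (2 : R⟦X⟧) ≠ 0 := by
  intro h
  have := congrArg constantCoeff h
  rw [map_ofNat, map_zero] at this
  exact two_ne_zero this

theorem Good.thv [IsDomain R] [CharZero R] {c : R} {u v : R⟦X⟧} (h : Good T G c u v) :
    th v = C c * G * X * u * (2 * X * u ^ 2 - C T) := by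
  have hv : v ≠ 0 := by
    rintro rfl
    have := h.cv
    simp at this
  have h2 : (2 : R⟦X⟧) * v ≠ 0 := by
    exact mul_ne_zero two_ne_zero' hv
  apply mul_left_cancel₀ h2
  have h3 : th (v ^ 2) = th (1 - C T * X * u ^ 2 + X ^ 2 * u ^ 4) := by rw [h.curve]
  rw [th_sq, th_add, th_sub, th_mul (C T * X), th_mul (C T), th_mul (X ^ 2), th_sq, th_sq,
    th_pow4, th_C, th_X, th_one] at h3
  rw [h3]
  have h4 := h.ode
  linear_combination (-2 * C T * X * u + 4 * X ^ 2 * u ^ 3) * h4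

theorem Good.add [IsDomain R] [CharZero R] {c₁ c₂ : R} {u₁ v₁ u₂ v₂ : R⟦X⟧} (h₁ : Good T G c₁ u₁ v₁)
    (h₂ : Good T G c₂ u₂ v₂) {w : R⟦X⟧} (hw : (1 - X ^ 2 * u₁ ^ 2 * u₂ ^ 2) * w = 1)
    (hw0 : constantCoeff w = 1) :
    Good T G (c₁ + c₂) ((u₁ * v₂ + u₂ * v₁) * w)
      (((1 + X ^ 2 * u₁ ^ 2 * u₂ ^ 2) * (v₁ * v₂ - C T * X * u₁ * u₂)
        + 2 * X * u₁ * u₂ * (X * u₁ ^ 2 + X * u₂ ^ 2)) * w ^ 2) where
  curve := by
    have a1 := h₁.curve
    have a2 := h₂.curve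
    have key : ((1 + X ^ 2 * u₁ ^ 2 * u₂ ^ 2) * (v₁ * v₂ - C T * X * u₁ * u₂)
        + 2 * X * u₁ * u₂ * (X * u₁ ^ 2 + X * u₂ ^ 2)) ^ 2 =
        (1 - X ^ 2 * u₁ ^ 2 * u₂ ^ 2) ^ 4
          - C T * X * (u₁ * v₂ + u₂ * v₁) ^ 2 * (1 - X ^ 2 * u₁ ^ 2 * u₂ ^ 2) ^ 2
          + X ^ 2 * (u₁ * v₂ + u₂ * v₁) ^ 4 := by
      exact add_key _ _ _ _ _ _ a1 a2
    set D : R⟦X⟧ := 1 - X ^ 2 * u₁ ^ 2 * u₂ ^ 2 with hD
    set n : R⟦X⟧ := u₁ * v₂ + u₂ * v₁ with hn
    linear_combination w ^ 4 * key + ((D * w) ^ 3 + (D * w) ^ 2 + D * w + 1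
      - C T * X * n ^ 2 * w ^ 2 * (D * w + 1)) * hw
  cv := by
    simp [h₁.cv, h₂.cv, hw0]
  ode := by
    have o1 := h₁.ode
    have o2 := h₂.ode
    have e1 := h₁.thv
    have e2 := h₂.thv
    have a1 := h₁.curve
    have a2 := h₂.curve
    have hD : th (1 - X ^ 2 * u₁ ^ 2 * u₂ ^ 2) =
        -(4 * X ^ 2 * u₁ ^ 2 * u₂ ^ 2 + 2 * X ^ 2 * u₁ * u₂ ^ 2 * th u₁
          + 2 * X ^ 2 * u₁ ^ 2 * u₂ * th u₂) := by
      rw [th_sub, th_one, th_mul, th_mul, th_sq, th_sq, th_sq, th_X]; ring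
    rw [th_mul, th_inv hw, hD, th_add, th_mul, th_mul, e1, e2, map_add]
    have o1' : th u₁ = C c₁ * v₁ * G - u₁ := by rw [← o1]; ring
    have o2' : th u₂ = C c₂ * v₂ * G - u₂ := by rw [← o2]; ring
    rw [o1', o2']
    generalize (C T : R⟦X⟧) = t at *
    generalize (C c₁ : R⟦X⟧) = k₁ at *
    generalize (C c₂ : R⟦X⟧) = k₂ at *
    clear o1 o2 e1 e2 hD o1' o2'
    have key : ((k₁ + k₂) * v₁ * v₂ * G - (u₁ * v₂ + u₂ * v₁)
        + G * X * u₁ * u₂ * (k₂ * (2 * X * u₂ ^ 2 - t) + k₁ * (2 * X * u₁ ^ 2 - t))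
        + (u₁ * v₂ + u₂ * v₁)) * (1 - X ^ 2 * u₁ ^ 2 * u₂ ^ 2)
        + 2 * X ^ 2 * u₁ * u₂ * G * (u₁ * v₂ + u₂ * v₁) * (k₁ * u₂ * v₁ + k₂ * u₁ * v₂)
        = (k₁ + k₂) * G * ((1 + X ^ 2 * u₁ ^ 2 * u₂ ^ 2) * (v₁ * v₂ - t * X * u₁ * u₂)
        + 2 * X * u₁ * u₂ * (X * u₁ ^ 2 + X * u₂ ^ 2)) := by
      linear_combination 2 * X ^ 2 * u₁ * u₂ * G * (k₁ * u₂ ^ 2 * a1 + k₂ * u₁ ^ 2 * a2)
    have hw2 : (1 - X ^ 2 * u₁ ^ 2 * u₂ ^ 2) * w ^ 2 = w := by
      linear_combination w * hw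
    linear_combination w ^ 2 * key
      - ((k₁ + k₂) * v₁ * v₂ * G
        + G * X * u₁ * u₂ * (k₂ * (2 * X * u₂ ^ 2 - t) + k₁ * (2 * X * u₁ ^ 2 - t))) * hw2

end Curve

end Pool.Agent.H61.Sun
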