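import Mathlib
import Pool.Agent.H61.Sun.Curve

set_option autoImplicit false
set_option linter.unusedSectionVars false

namespace Pool.Agent.H61.Sun

open PowerSeries

variable {R : Type*} [CommRing R] [IsDomain R] [CharZero R]

/-- Parameters: `a, b` are the two conjugate roots of `x² - x + 2`, `r = 1/b = a/2`. -/
structure Par (a b r T : R) : Prop where
  add : a + b = 1
  mul : a * b = 2
  ar : a = 2 * r
  br : b * r = 1
  hT : T = b ^ 2 + r ^ 2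

variable {a b r T : R} {G : R⟦X⟧}

theorem Par.a2 (h : Par a b r T) : a ^ 2 = a - 2 := by
  linear_combination a * h.add - h.mul

theorem Par.b2 (h : Par a b r T) : b ^ 2 = b - 2 := by
  linear_combination b * h.add - h.mul

theorem Par.four_T (h : Par a b r T) : 4 * T = - 3 * (2 + a) := by
  rw [h.hT, h.b2]
  linear_combination h.a2 - (2 * r + a) * h.ar + 4 * h.add

theorem Par.hT1 (h : Par a b r T) : T * (a ^ 2 - 1) = 6 := by
  have h4 : (4 : R) ≠ 0 := by norm_num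
  apply mul_left_cancel₀ h4
  linear_combination (a ^ 2 - 1) * h.four_T - 3 * (a + 3) * h.a2

theorem Par.hT2 (h : Par a b r T) : 2 * T * (1 + a ^ 2) = 4 + a ^ 4 := by
  have h4 : (2 : R) ≠ 0 := by norm_num
  apply mul_left_cancel₀ h4
  linear_combination (1 + a ^ 2) * h.four_T - (2 * a ^ 2 + 5 * a + 7) * h.a2

/-- `(b² + 1)² = 4 r²`. -/
theorem Par.r1 (h : Par a b r T) : (b ^ 2 + 1) ^ 2 = 4 * r ^ 2 := by
  have h1 : b ^ 2 + 1 = - a := by linear_combination h.b2 + h.add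
  rw [h1, h.ar]; ring

theorem a_key {S : Type*} [CommRing S] (Z v a t : S) (hv : v ^ 2 = 1 - t * Z + Z ^ 2)
    (h1 : t * (a ^ 2 - 1) = 6) (h2 : 2 * t * (1 + a ^ 2) = 4 + a ^ 4) :
    (1 - Z) ^ 2 * v ^ 2 = (1 + Z) ^ 4 - t * a ^ 2 * Z * (1 + Z) ^ 2 + a ^ 4 * Z ^ 2 := by
  linear_combination (1 - Z) ^ 2 * hv + Z * (1 + Z ^ 2) * h1 + Z ^ 2 * h2

theorem b_key {S : Type*} [CommRing S] (Z v B q t : S) (hv : v ^ 2 = 1 - t * Z + Z ^ 2)
    (ht : t = B + q) (hBq : B * q = 1) (h1 : (B + 1) ^ 2 = 4 * q) :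
    (1 - 2 * q * Z + Z ^ 2) ^ 2 * (1 - B * Z) ^ 2 =
      (1 - B * Z) ^ 4 - t * B * Z * v ^ 2 * (1 - B * Z) ^ 2 + B ^ 2 * Z ^ 2 * v ^ 4 := by
  have e : v ^ 2 = (1 - B * Z) * (1 - q * Z) := by
    rw [hv, ht]; linear_combination (- Z ^ 2) * hBq
  have e4 : v ^ 4 = ((1 - B * Z) * (1 - q * Z)) ^ 2 := by rw [← e]; ring
  rw [e4, e, ht]
  have k : (1 - 2 * q * Z + Z ^ 2) ^ 2 = (1 - B * Z) ^ 2
      - (B + q) * B * Z * (1 - B * Z) * (1 - q * Z) + B ^ 2 * Z ^ 2 * (1 - q * Z) ^ 2 := by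
    grind
  linear_combination (1 - B * Z) ^ 2 * k

/-- Multiplication by `a`. -/
theorem Good.amul (hp : Par a b r T) {c : R} {u v w : R⟦X⟧} (h : Good T G c u v)
    (hw : (1 + X * u ^ 2) * w = 1) (hw0 : constantCoeff w = 1) :
    Good T G (a * c) (C a * u * w) ((1 - X * u ^ 2) * v * w ^ 2) where
  curve := by
    have e1 : (C T : R⟦X⟧) * ((C a : R⟦X⟧) ^ 2 - 1) = 6 := by
      have := congrArg (C : R →+* R⟦X⟧) hp.hT1
      simpa only [map_mul, map_sub, map_pow, map_one, map_ofNat] using this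
    have e2 : 2 * (C T : R⟦X⟧) * (1 + (C a : R⟦X⟧) ^ 2) = 4 + (C a : R⟦X⟧) ^ 4 := by
      have := congrArg (C : R →+* R⟦X⟧) hp.hT2
      simpa only [map_mul, map_add, map_pow, map_one, map_ofNat] using this
    have hv : v ^ 2 = 1 - C T * (X * u ^ 2) + (X * u ^ 2) ^ 2 := by rw [h.curve]; ring
    have key := a_key (X * u ^ 2) v (C a) (C T) hv e1 e2
    set D : R⟦X⟧ := 1 + X * u ^ 2 with hD
    linear_combination w ^ 4 * key + ((D * w) ^ 3 + (D * w) ^ 2 + D * w + 1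
      - C T * (C a) ^ 2 * (X * u ^ 2) * w ^ 2 * (D * w + 1)) * hw
  cv := by
    simp [h.cv, hw0]
  ode := by
    have o : th u = C c * v * G - u := by rw [← h.ode]; ring
    have hD : th (1 + X * u ^ 2) = 2 * X * u ^ 2 + 2 * X * u * th u := by
      rw [th_add, th_one, th_mul, th_sq, th_X]; ring
    rw [th_mul, th_mul, th_C, th_inv hw, hD, o, map_mul]
    linear_combination (- C a * C c * v * G * w) * hw

/-- Multiplication by `b`. -/
theorem Good.bmul (hp : Par a b r T) {c : R} {u v w : R⟦X⟧} (h : Good T G c u v)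
    (hw : (1 - C (b ^ 2) * (X * u ^ 2)) * w = 1) (hw0 : constantCoeff w = 1) :
    Good T G (b * c) (C b * u * v * w)
      ((1 - 2 * C (r ^ 2) * (X * u ^ 2) + (X * u ^ 2) ^ 2) * w) where
  curve := by
    have hv : v ^ 2 = 1 - C T * (X * u ^ 2) + (X * u ^ 2) ^ 2 := by rw [h.curve]; ring
    have e1 : (C T : R⟦X⟧) = C (b ^ 2) + C (r ^ 2) := by rw [hp.hT, map_add]
    have e2 : (C (b ^ 2) : R⟦X⟧) * C (r ^ 2) = 1 := by
      rw [← map_mul, ← mul_pow, hp.br, one_pow, map_one]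
    have e3 : ((C (b ^ 2) : R⟦X⟧) + 1) ^ 2 = 4 * C (r ^ 2) := by
      have := congrArg (C : R →+* R⟦X⟧) hp.r1
      simpa only [map_mul, map_add, map_pow, map_one, map_ofNat] using this
    have key := b_key (X * u ^ 2) v (C (b ^ 2)) (C (r ^ 2)) (C T) hv e1 e2 e3
    have hb : (C b : R⟦X⟧) ^ 2 = (C (b ^ 2)) := by rw [map_pow]
    generalize (C (b ^ 2) : R⟦X⟧) = B at *
    generalize (C (r ^ 2) : R⟦X⟧) = q at *
    generalize (C b : R⟦X⟧) = β at *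
    obtain ⟨Z, hZ⟩ : ∃ Z : R⟦X⟧, Z = X * u ^ 2 := ⟨_, rfl⟩
    obtain ⟨D, hD⟩ : ∃ D : R⟦X⟧, D = 1 - B * Z := ⟨_, rfl⟩
    obtain ⟨F, hF⟩ : ∃ F : R⟦X⟧, F = 1 - 2 * q * Z + Z ^ 2 := ⟨_, rfl⟩
    rw [← hZ] at hw key ⊢
    rw [← hD] at hw key
    rw [← hF] at key ⊢
    have hw2 : D ^ 2 * w ^ 2 = 1 := by linear_combination (D * w + 1) * hw
    have hw4 : D ^ 4 * w ^ 4 = 1 := by linear_combination (D ^ 2 * w ^ 2 + 1) * hw2
    have g : (F * w) ^ 2 = 1 - C T * Z * (β * v * w) ^ 2 + Z ^ 2 * (β * v * w) ^ 4 := by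
      linear_combination (- F ^ 2 * w ^ 2) * hw2 + w ^ 4 * key + hw4
        - C T * B * Z * v ^ 2 * w ^ 2 * hw2
        + (C T * Z * v ^ 2 * w ^ 2 - Z ^ 2 * v ^ 4 * w ^ 4 * (β ^ 2 + B)) * hb
    rw [g, hZ]; ring
  cv := by
    simp [hw0]
  ode := by
    have o : th u = C c * v * G - u := by rw [← h.ode]; ring
    have ov := h.thv
    have hD : th (1 - C (b ^ 2) * (X * u ^ 2)) = - (C (b ^ 2) * (2 * X * u ^ 2 + 2 * X * u * th u)) := by
      rw [th_sub, th_one, th_mul, th_C, th_mul, th_sq, th_X]; ring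
    rw [th_mul, th_mul, th_mul, th_C, th_inv hw, hD, o, ov, map_mul]
    have hv : v ^ 2 = 1 - C T * (X * u ^ 2) + (X * u ^ 2) ^ 2 := by rw [h.curve]; ring
    have e1 : (C T : R⟦X⟧) = C (b ^ 2) + C (r ^ 2) := by rw [hp.hT, map_add]
    have e2 : (C (b ^ 2) : R⟦X⟧) * C (r ^ 2) = 1 := by
      rw [← map_mul, ← mul_pow, hp.br, one_pow, map_one]
    rw [e1] at hv ⊢
    generalize (C (b ^ 2) : R⟦X⟧) = B at *
    generalize (C (r ^ 2) : R⟦X⟧) = q at *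
    generalize (C b : R⟦X⟧) = β at *
    generalize (C c : R⟦X⟧) = γ at *
    have hw2 : (1 - B * (X * u ^ 2)) * w ^ 2 = w := by linear_combination w * hw
    have k : v ^ 2 * (1 + B * (X * u ^ 2)) + X * u ^ 2 * (2 * (X * u ^ 2) - (B + q))
        * (1 - B * (X * u ^ 2)) = (1 - 2 * q * (X * u ^ 2) + (X * u ^ 2) ^ 2)
          * (1 - B * (X * u ^ 2)) := by
      linear_combination (1 + B * (X * u ^ 2)) * hv - 2 * (X * u ^ 2) ^ 2 * e2
    linear_combination β * γ * G * w ^ 2 * k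
      - β * γ * G * (v ^ 2 + X * u ^ 2 * (2 * (X * u ^ 2) - (B + q))
        - (1 - 2 * q * (X * u ^ 2) + (X * u ^ 2) ^ 2)) * hw2

end Pool.Agent.H61.Sun
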