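import Mathlib
import Pool.Agent.H61.Sun.Points

set_option autoImplicit false
set_option linter.unusedSectionVars false

namespace Pool.Agent.H61.Sun

open PowerSeries

variable {R : Type*} [CommRing R] [IsDomain R] [CharZero R]
variable {a b r T : R} {G : R⟦X⟧}

/-- Uniqueness of the point with a given multiplier. -/
theorem Good.unique {c : R} {u v u' v' : R⟦X⟧} (h : Good T G c u v) (h' : Good T G c u' v') :
    u = u' ∧ v = v' := by
  have hs : (v - v') * (v + v') = X * ((u - u') * ((u + u') * (- C T + X * (u ^ 2 + u' ^ 2)))) := by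
    linear_combination h.curve - h'.curve
  have hX : ¬ (X : R⟦X⟧) ∣ (v + v') := by
    intro hd
    rw [X_dvd_iff, map_add, h.cv, h'.cv] at hd
    norm_num at hd
  have step : ∀ n : ℕ, (X : R⟦X⟧) ^ n ∣ (u - u') → (X : R⟦X⟧) ^ (n + 1) ∣ (v - v') := by
    intro n hn
    have h1 : (X : R⟦X⟧) ^ (n + 1) ∣ (v - v') * (v + v') := by
      rw [hs, pow_succ']
      exact mul_dvd_mul_left _ (hn.mul_right _)
    exact (X_prime).pow_dvd_of_dvd_mul_right _ hX h1
  have hu : ∀ n : ℕ, (X : R⟦X⟧) ^ n ∣ (u - u') := by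
    intro n
    induction n with
    | zero => simp
    | succ n ih =>
      have h1 := step n ih
      have h2 : (u - u') + th (u - u') = C c * (v - v') * G := by
        rw [th_sub]; linear_combination h.ode - h'.ode
      have h3 : (X : R⟦X⟧) ^ (n + 1) ∣ (u - u') + th (u - u') := by
        rw [h2]
        exact (h1.mul_left _).mul_right _
      rw [X_pow_dvd_iff] at h3 ih ⊢
      intro m hm
      have h4 := h3 m hm
      rw [map_add, coeff_th] at h4
      have h5 : ((2 * m + 1 : ℕ) : R) * coeff m (u - u') = 0 := by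
        push_cast; linear_combination h4
      rcases mul_eq_zero.mp h5 with h6 | h6
      · exact absurd h6 (by exact_mod_cast (by omega : 2 * m + 1 ≠ 0))
      · exact h6
  constructor
  · rw [← sub_eq_zero]
    ext n
    exact (X_pow_dvd_iff.mp (hu (n + 1))) n (Nat.lt_succ_self n)
  · rw [← sub_eq_zero]
    ext n
    exact (X_pow_dvd_iff.mp (step n (hu n))) n (Nat.lt_succ_self n)

open scoped Polynomial

/-- Rational structure of `X u²` for the point with multiplier `m + n a` of norm `N`. -/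
structure RS (b : R) (N : ℕ) (m n : ℤ) (u : R⟦X⟧) (U V : R[X]) : Prop where
  rel : (V : R⟦X⟧) * (X * u ^ 2) = (U : R⟦X⟧)
  V0 : V.coeff 0 = 1
  degU : U.natDegree ≤ N
  degV : V.natDegree ≤ N
  topE : Even m → U.coeff N = 0 ∧ V.coeff N ^ 2 = 1
  topO : ¬ Even m → U.coeff N ^ 2 = 1 ∧ V.coeff N = 0
  evE : Even (m + n) → U.eval (b ^ 2) = 0
  evO : ¬ Even (m + n) → U.eval (b ^ 2) = b ^ 2 * V.eval (b ^ 2)

/-- Rational structure of `u` for the point with odd multiplier of norm `2 l + 1`. -/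
structure OD (b : R) (l : ℕ) (σ : R) (u : R⟦X⟧) (J K : R[X]) : Prop where
  rel : (K : R⟦X⟧) * u = (J : R⟦X⟧)
  K0 : K.coeff 0 = 1
  degJ : J.natDegree ≤ l
  degK : K.natDegree ≤ l
  top : J.coeff l ^ 2 = 1
  ev : J.eval (b ^ 2) = σ * K.eval (b ^ 2)

theorem OD.toRS {b : R} {l : ℕ} {σ : R} {u : R⟦X⟧} {J K : R[X]} (h : OD b l σ u J K)
    (hσ : σ ^ 2 = 1) {m n : ℤ} (hm : ¬ Even m) (hmn : ¬ Even (m + n)) :
    RS b (2 * l + 1) m n u (Polynomial.X * J ^ 2) (K ^ 2) where
  rel := by
    simp only [Polynomial.coe_mul, Polynomial.coe_pow, Polynomial.coe_X]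
    rw [← h.rel]; ring
  V0 := by
    rw [Polynomial.coeff_zero_eq_eval_zero, Polynomial.eval_pow,
      ← Polynomial.coeff_zero_eq_eval_zero, h.K0, one_pow]
  degU := by
    have h1 := Polynomial.natDegree_pow_le_of_le 2 h.degJ
    refine (Polynomial.natDegree_mul_le).trans ?_
    have := Polynomial.natDegree_X_le (R := R)
    omega
  degV := by
    have h1 := Polynomial.natDegree_pow_le_of_le 2 h.degK
    omega
  topE := fun he => absurd he hm
  topO := fun _ => by
    constructor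
    · rw [Polynomial.coeff_X_mul, two_mul, pow_two J, Polynomial.coeff_mul_add_eq_of_natDegree_le h.degJ h.degJ,
        ← pow_two, h.top, one_pow]
    · apply Polynomial.coeff_eq_zero_of_natDegree_lt
      have h1 := Polynomial.natDegree_pow_le_of_le 2 h.degK
      omega
  evE := fun he => absurd he hmn
  evO := fun _ => by
    rw [Polynomial.eval_mul, Polynomial.eval_pow, Polynomial.eval_pow, Polynomial.eval_X, h.ev,
      mul_pow, hσ, one_mul]

theorem RS.amul {b : R} {N : ℕ} {m n : ℤ} {u w : R⟦X⟧} {U V : R[X]} (h : RS b N m n u U V)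
    {a : R} (hb : a ^ 2 = (1 + b ^ 2) ^ 2)
    (hw : (1 + X * u ^ 2) * w = 1) :
    RS b (2 * N) (-2 * n) (m + n) (C a * u * w) (Polynomial.C (a ^ 2) * (U * V)) ((U + V) ^ 2) where
  rel := by
    simp only [Polynomial.coe_mul, Polynomial.coe_pow, Polynomial.coe_add, Polynomial.coe_C]
    rw [← h.rel, map_pow]
    have h1 : ((V : R⟦X⟧) * (X * u ^ 2) + (V : R⟦X⟧)) * w = (V : R⟦X⟧) := by
      linear_combination (V : R⟦X⟧) * hw
    generalize (V : R⟦X⟧) = V' at *
    linear_combination (X * (C a) ^ 2 * u ^ 2) * ((V' * (X * u ^ 2) + V') * w + V') * h1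
  V0 := by
    have hU0 : U.coeff 0 = 0 := by
      have := congrArg (constantCoeff) h.rel
      simpa using this.symm
    rw [Polynomial.coeff_zero_eq_eval_zero, Polynomial.eval_pow, Polynomial.eval_add,
      ← Polynomial.coeff_zero_eq_eval_zero, ← Polynomial.coeff_zero_eq_eval_zero, h.V0, hU0]
    ring
  degU := by
    refine (Polynomial.natDegree_C_mul_le _ _).trans ?_
    have := Polynomial.natDegree_mul_le_of_le h.degU h.degV
    omega
  degV := by
    have h1 := Polynomial.natDegree_pow_le_of_le 2 (Polynomial.natDegree_add_le_of_degree_le h.degU h.degV)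
    omega
  topE := fun _ => by
    have e1 : (U * V).coeff (2 * N) = U.coeff N * V.coeff N := by
      rw [two_mul, Polynomial.coeff_mul_add_eq_of_natDegree_le h.degU h.degV]
    have h2 := Polynomial.natDegree_add_le_of_degree_le h.degU h.degV
    have e2 : ((U + V) ^ 2).coeff (2 * N) = (U.coeff N + V.coeff N) ^ 2 := by
      rw [pow_two, two_mul, Polynomial.coeff_mul_add_eq_of_natDegree_le h2 h2, Polynomial.coeff_add]
      ring
    rw [Polynomial.coeff_C_mul, e1, e2]
    by_cases hm : Even m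
    · obtain ⟨h3, h4⟩ := h.topE hm
      rw [h3]
      refine ⟨by ring, ?_⟩
      rw [zero_add, h4, one_pow]
    · obtain ⟨h3, h4⟩ := h.topO hm
      rw [h4]
      refine ⟨by ring, ?_⟩
      rw [add_zero, h3, one_pow]
  topO := fun ho => absurd (by exact ⟨-n, by ring⟩) ho
  evE := fun he => by
    have hmn : Even (m + n) := by
      have : m + n = (-2 * n + (m + n)) + (n + n) := by ring
      rw [this]; exact he.add ⟨n, rfl⟩
    rw [Polynomial.eval_mul, Polynomial.eval_mul, h.evE hmn]; ring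
  evO := fun he => by
    have hmn : ¬ Even (m + n) := by
      intro hh
      apply he
      have : -2 * n + (m + n) = (m + n) + (-n + -n) := by ring
      rw [this]; exact hh.add ⟨-n, rfl⟩
    rw [Polynomial.eval_mul, Polynomial.eval_mul, Polynomial.eval_C, Polynomial.eval_pow,
      Polynomial.eval_add, h.evO hmn, hb]
    ring

theorem RS.bmul {b r T : R} {G : R⟦X⟧} {c : R} {N : ℕ} {m n : ℤ} {u v w : R⟦X⟧} {U V : R[X]}
    (h : RS b N m n u U V) (hg : Good T G c u v) (hT : T = b ^ 2 + r ^ 2) (hbr : b * r = 1)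
    (hw : (1 - C (b ^ 2) * (X * u ^ 2)) * w = 1) :
    RS b (2 * N) (m + 2 * n) (-m) (C b * u * v * w)
      (U * (Polynomial.C (b ^ 2) * V - U)) (V * (V - Polynomial.C (b ^ 2) * U)) where
  rel := by
    simp only [Polynomial.coe_mul, Polynomial.coe_sub, Polynomial.coe_C]
    rw [← h.rel]
    have e1 : (C T : R⟦X⟧) = C (b ^ 2) + C (r ^ 2) := by rw [hT, map_add]
    have e2 : (C (b ^ 2) : R⟦X⟧) * C (r ^ 2) = 1 := by
      rw [← map_mul, ← mul_pow, hbr, one_pow, map_one]
    have hb : (C b : R⟦X⟧) ^ 2 = (C (b ^ 2)) := by rw [map_pow]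
    have hv : v ^ 2 = (1 - C (b ^ 2) * (X * u ^ 2)) * (1 - C (r ^ 2) * (X * u ^ 2)) := by
      rw [hg.curve, e1]; linear_combination (- (X * u ^ 2) ^ 2) * e2
    generalize (C (b ^ 2) : R⟦X⟧) = B at *
    generalize (C (r ^ 2) : R⟦X⟧) = q at *
    generalize (C b : R⟦X⟧) = β at *
    generalize (V : R⟦X⟧) = V' at *
    have hw2 : (1 - B * (X * u ^ 2)) ^ 2 * w ^ 2 = 1 := by
      linear_combination ((1 - B * (X * u ^ 2)) * w + 1) * hw
    have e3 : V' * (V' - B * (V' * (X * u ^ 2))) * (X * (β * u * v * w) ^ 2)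
        = V' ^ 2 * (1 - B * (X * u ^ 2)) * (X * u ^ 2) * w ^ 2 * β ^ 2 * v ^ 2 := by ring
    rw [e3, hv, hb]
    linear_combination (V' ^ 2 * X * u ^ 2 * B * (1 - q * (X * u ^ 2))) * hw2
      - (V' ^ 2 * (X * u ^ 2) ^ 2) * e2
  V0 := by
    have hU0 : U.coeff 0 = 0 := by
      have := congrArg (constantCoeff) h.rel
      simpa using this.symm
    rw [Polynomial.mul_coeff_zero, Polynomial.coeff_sub, Polynomial.coeff_C_mul, hU0, h.V0]
    ring
  degU := by
    have h1 : (Polynomial.C (b ^ 2) * V - U).natDegree ≤ N := by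
      refine (Polynomial.natDegree_sub_le_of_le ((Polynomial.natDegree_C_mul_le _ _).trans h.degV) h.degU).trans ?_
      simp
    have := Polynomial.natDegree_mul_le_of_le h.degU h1
    omega
  degV := by
    have h1 : (V - Polynomial.C (b ^ 2) * U).natDegree ≤ N := by
      refine (Polynomial.natDegree_sub_le_of_le h.degV ((Polynomial.natDegree_C_mul_le _ _).trans h.degU)).trans ?_
      simp
    have := Polynomial.natDegree_mul_le_of_le h.degV h1
    omega
  topE := fun he => by
    have hm : Even m := by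
      have : m = (m + 2 * n) + (-n + -n) := by ring
      rw [this]; exact he.add ⟨-n, rfl⟩
    obtain ⟨h3, h4⟩ := h.topE hm
    have h1 : (Polynomial.C (b ^ 2) * V - U).natDegree ≤ N := by
      refine (Polynomial.natDegree_sub_le_of_le ((Polynomial.natDegree_C_mul_le _ _).trans h.degV) h.degU).trans ?_
      simp
    have h2 : (V - Polynomial.C (b ^ 2) * U).natDegree ≤ N := by
      refine (Polynomial.natDegree_sub_le_of_le h.degV ((Polynomial.natDegree_C_mul_le _ _).trans h.degU)).trans ?_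
      simp
    rw [two_mul, Polynomial.coeff_mul_add_eq_of_natDegree_le h.degU h1, Polynomial.coeff_mul_add_eq_of_natDegree_le h.degV h2,
      Polynomial.coeff_sub, Polynomial.coeff_sub, Polynomial.coeff_C_mul, Polynomial.coeff_C_mul, h3]
    refine ⟨by ring, ?_⟩
    rw [mul_zero, sub_zero, ← pow_two, h4, one_pow]
  topO := fun he => by
    have hm : ¬ Even m := by
      intro hh
      exact he (hh.add ⟨n, by ring⟩)
    obtain ⟨h3, h4⟩ := h.topO hm
    have h1 : (Polynomial.C (b ^ 2) * V - U).natDegree ≤ N := by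
      refine (Polynomial.natDegree_sub_le_of_le ((Polynomial.natDegree_C_mul_le _ _).trans h.degV) h.degU).trans ?_
      simp
    have h2 : (V - Polynomial.C (b ^ 2) * U).natDegree ≤ N := by
      refine (Polynomial.natDegree_sub_le_of_le h.degV ((Polynomial.natDegree_C_mul_le _ _).trans h.degU)).trans ?_
      simp
    rw [two_mul, Polynomial.coeff_mul_add_eq_of_natDegree_le h.degU h1, Polynomial.coeff_mul_add_eq_of_natDegree_le h.degV h2,
      Polynomial.coeff_sub, Polynomial.coeff_sub, Polynomial.coeff_C_mul, Polynomial.coeff_C_mul, h4]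
    refine ⟨?_, by ring⟩
    linear_combination (U.coeff N ^ 2 + 1) * h3
  evE := fun _ => by
    rw [Polynomial.eval_mul, Polynomial.eval_sub, Polynomial.eval_mul, Polynomial.eval_C]
    by_cases hmn : Even (m + n)
    · rw [h.evE hmn]; ring
    · rw [h.evO hmn]; ring
  evO := fun he => absurd (by exact ⟨n, by ring⟩) he

theorem OD.ofSum {b : R} (hb0 : b ≠ 0) {N₁ N₂ : ℕ} (hN : 1 ≤ N₁ + N₂) {s c : ℤ} {u₁ u₂ w : R⟦X⟧}
    {A B E D : R[X]} (h₁ : RS b N₁ (s + 1) c u₁ A B) (h₂ : RS b N₂ s c u₂ E D)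
    (hw : (1 - X ^ 2 * u₁ ^ 2 * u₂ ^ 2) * w = 1) :
    ∃ J K : R[X], OD b (N₁ + N₂ - 1) (if Even (s + c) then 1 else -1) ((u₁ ^ 2 - u₂ ^ 2) * w) J K := by
  have hA0 : A.coeff 0 = 0 := by
    have := congrArg (constantCoeff) h₁.rel
    simpa using this.symm
  have hE0 : E.coeff 0 = 0 := by
    have := congrArg (constantCoeff) h₂.rel
    simpa using this.symm
  have hX : Polynomial.X ∣ (A * D - B * E) := by
    rw [Polynomial.X_dvd_iff, Polynomial.coeff_sub, Polynomial.mul_coeff_zero,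
      Polynomial.mul_coeff_zero, hA0, hE0]
    ring
  obtain ⟨J, hJ⟩ := hX
  obtain ⟨l, hl⟩ : ∃ l, N₁ + N₂ = l + 1 := ⟨N₁ + N₂ - 1, by omega⟩
  have hl' : N₁ + N₂ - 1 = l := by omega
  rw [hl']
  refine ⟨J, B * D - A * E, ?_⟩
  have dJ : (A * D - B * E).natDegree ≤ l + 1 := by
    rw [← hl]
    refine (Polynomial.natDegree_sub_le_of_le
      (Polynomial.natDegree_mul_le_of_le h₁.degU h₂.degV)
      (Polynomial.natDegree_mul_le_of_le h₁.degV h₂.degU)).trans ?_
    simp
  have dK : (B * D - A * E).natDegree ≤ l + 1 := by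
    rw [← hl]
    refine (Polynomial.natDegree_sub_le_of_le
      (Polynomial.natDegree_mul_le_of_le h₁.degV h₂.degV)
      (Polynomial.natDegree_mul_le_of_le h₁.degU h₂.degU)).trans ?_
    simp
  have cJ : J.coeff l = A.coeff N₁ * D.coeff N₂ - B.coeff N₁ * E.coeff N₂ := by
    rw [← Polynomial.coeff_mul_add_eq_of_natDegree_le h₁.degU h₂.degV,
      ← Polynomial.coeff_mul_add_eq_of_natDegree_le h₁.degV h₂.degU, ← Polynomial.coeff_sub, hl, hJ,
      Polynomial.coeff_X_mul]
  have cK : (B * D - A * E).coeff (l + 1) = B.coeff N₁ * D.coeff N₂ - A.coeff N₁ * E.coeff N₂ := by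
    rw [← Polynomial.coeff_mul_add_eq_of_natDegree_le h₁.degV h₂.degV,
      ← Polynomial.coeff_mul_add_eq_of_natDegree_le h₁.degU h₂.degU, ← Polynomial.coeff_sub, hl]
  have hb2 : b ^ 2 ≠ 0 := pow_ne_zero 2 hb0
  refine ⟨?_, ?_, ?_, ?_, ?_, ?_⟩
  · apply mul_left_cancel₀ (X_ne_zero (R := R))
    have e : (X : R⟦X⟧) * (J : R⟦X⟧) = ((A * D - B * E : R[X]) : R⟦X⟧) := by
      rw [hJ]; simp
    rw [e]
    simp only [Polynomial.coe_mul, Polynomial.coe_sub]
    rw [← h₁.rel, ← h₂.rel]
    generalize (B : R⟦X⟧) = B' at *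
    generalize (D : R⟦X⟧) = D' at *
    linear_combination (X * B' * D' * (u₁ ^ 2 - u₂ ^ 2)) * hw
  · rw [Polynomial.coeff_sub, Polynomial.mul_coeff_zero, Polynomial.mul_coeff_zero, h₁.V0, h₂.V0, hA0]
    ring
  · by_cases hJ0 : J = 0
    · rw [hJ0]; simp
    · rw [hJ, Polynomial.natDegree_X_mul hJ0] at dJ
      omega
  · rw [Polynomial.natDegree_le_iff_coeff_eq_zero]
    intro k hk
    rcases Nat.lt_or_ge (l + 1) k with h | h
    · exact Polynomial.coeff_eq_zero_of_natDegree_lt (lt_of_le_of_lt dK h)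
    · have : k = l + 1 := by omega
      rw [this, cK]
      by_cases hs : Even s
      · have hs1 : ¬ Even (s + 1) := by
          rw [Int.not_even_iff_odd]; exact hs.add_one
        rw [(h₁.topO hs1).2, (h₂.topE hs).1]; ring
      · have hs1 : Even (s + 1) := by
          rw [Int.not_even_iff_odd] at hs; exact hs.add_one
        rw [(h₁.topE hs1).1, (h₂.topO hs).2]; ring
  · rw [cJ]
    by_cases hs : Even s
    · have hs1 : ¬ Even (s + 1) := by
        rw [Int.not_even_iff_odd]; exact hs.add_one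
      rw [(h₁.topO hs1).2, zero_mul, sub_zero, mul_pow, (h₁.topO hs1).1, (h₂.topE hs).2, one_mul]
    · have hs1 : Even (s + 1) := by
        rw [Int.not_even_iff_odd] at hs; exact hs.add_one
      rw [(h₁.topE hs1).1, zero_mul, zero_sub, neg_sq, mul_pow, (h₁.topE hs1).2, (h₂.topO hs).1, one_mul]
  · apply mul_left_cancel₀ hb2
    have e : b ^ 2 * J.eval (b ^ 2) = (A * D - B * E).eval (b ^ 2) := by
      rw [hJ]; simp
    rw [e]
    by_cases hs : Even (s + c)
    · have hs1 : ¬ Even (s + 1 + c) := by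
        rw [Int.not_even_iff_odd]
        have : s + 1 + c = (s + c) + 1 := by ring
        rw [this]; exact hs.add_one
      simp only [hs, if_true, Polynomial.eval_sub, Polynomial.eval_mul, h₂.evE hs, h₁.evO hs1]
      ring
    · have hs1 : Even (s + 1 + c) := by
        rw [Int.not_even_iff_odd] at hs
        have : s + 1 + c = (s + c) + 1 := by ring
        rw [this]; exact hs.add_one
      simp only [hs, if_false, Polynomial.eval_sub, Polynomial.eval_mul, h₁.evE hs1, h₂.evO hs]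
      ring

theorem norm_nonneg' (m n : ℤ) : 0 ≤ m ^ 2 + m * n + 2 * n ^ 2 := by
  nlinarith [sq_nonneg (2 * m + n), sq_nonneg n]

theorem norm_eq_zero' {m n : ℤ} (h : m ^ 2 + m * n + 2 * n ^ 2 = 0) : m = 0 ∧ n = 0 := by
  have h1 : (2 * m + n) ^ 2 + 7 * n ^ 2 = 0 := by linear_combination 4 * h
  have h2 : n ^ 2 = 0 := by nlinarith [sq_nonneg (2 * m + n), sq_nonneg n]
  have hn : n = 0 := by simpa using h2
  subst hn
  simpa using h

theorem norm_eq_one' {m n : ℤ} (h : m ^ 2 + m * n + 2 * n ^ 2 = 1) : (m = 1 ∨ m = -1) ∧ n = 0 := by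
  have h1 : (2 * m + n) ^ 2 + 7 * n ^ 2 = 4 := by linear_combination 4 * h
  have h2 : n ^ 2 < 1 := by nlinarith [sq_nonneg (2 * m + n), sq_nonneg n]
  have hn : n = 0 := by
    have h3 : n ^ 2 = 0 := by nlinarith [sq_nonneg n]
    simpa using h3
  subst hn
  refine ⟨?_, rfl⟩
  have h4 : m ^ 2 = 1 := by simpa using h
  exact mul_self_eq_one_iff.mp (by rw [← pow_two]; exact h4)

theorem exists_point (hp : Par a b r T) {f : R⟦X⟧} (hf : f = 1 - C T * X + X ^ 2)
    (hG : G ^ 2 * f = 1) (hG0 : constantCoeff G = 1) :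
    ∀ (k : ℕ) (m n : ℤ), m ^ 2 + m * n + 2 * n ^ 2 = (k : ℤ) →
      ∃ (u v : R⟦X⟧) (U V : R[X]), Good T G ((m : R) + n * a) u v ∧ RS b k m n u U V ∧
        (∀ s c : ℤ, m = 2 * s + 1 → n = 2 * c → ∃ (l : ℕ) (J K : R[X]), k = 2 * l + 1 ∧
          OD b l (if Even (s + c) then 1 else -1) u J K) := by
  have hb0 : b ≠ 0 := by
    rintro rfl
    have := hp.br
    simp at this
  have one := Good.one (T := T) hf hG hG0
  intro k
  induction k using Nat.strong_induction_on with
  | _ k ih =>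
  intro m n hk
  rcases Nat.eq_zero_or_pos k with hk0 | hkpos
  · -- the zero point
    subst hk0
    obtain ⟨rfl, rfl⟩ := norm_eq_zero' (by simpa using hk)
    refine ⟨0, 1, 0, 1, ?_, ?_, ?_⟩
    · simpa using (Good.zero (T := T) (G := G))
    · refine ⟨by simp, by simp, by simp, by simp, fun _ => by simp, fun h => absurd (by simp) h,
        fun _ => by simp, fun h => absurd (by simp) h⟩
    · intro s c h1 _
      omega
  rcases Int.even_or_odd m with hm | hm
  · -- `m` even
    obtain ⟨s, hs⟩ := hm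
    have hm2 : m = 2 * s := by omega
    obtain ⟨k', hk'⟩ : ∃ k' : ℕ, (n + s) ^ 2 + (n + s) * (-s) + 2 * (-s) ^ 2 = (k' : ℤ) :=
      Int.eq_ofNat_of_zero_le (norm_nonneg' _ _)
    have hkk : k = 2 * k' := by
      zify; rw [← hk, ← hk', hm2]; ring
    obtain ⟨u, v, U, V, g, rs, -⟩ := ih k' (by omega) _ _ hk'
    obtain ⟨w, hw, hw0⟩ := exists_inv (1 + X * u ^ 2) (by simp)
    have g' := g.amul hp hw hw0
    have rs' := rs.amul (a := a) (by
      have : a = - (1 + b ^ 2) := by linear_combination hp.b2 + hp.add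
      rw [this]; ring) hw
    have e1 : -2 * (-s) = m := by rw [hm2]; ring
    have e2 : (n + s) + (-s) = n := by ring
    rw [e1, e2, ← hkk] at rs'
    have e3 : (m : R) + n * a = a * (((n + s : ℤ) : R) + ((-s : ℤ) : R) * a) := by
      rw [hm2]; push_cast
      linear_combination (s : R) * hp.a2
    rw [← e3] at g'
    refine ⟨_, _, _, _, g', rs', ?_⟩
    intro s' c h1 _
    omega
  rcases Int.even_or_odd n with hn | hn
  · -- odd multiplier
    obtain ⟨s, hs⟩ := hm
    obtain ⟨c, hc⟩ := hn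
    have hc2 : n = 2 * c := by omega
    have hmodd : ¬ Even m := by rw [Int.not_even_iff_odd]; exact ⟨s, hs⟩
    have hmnodd : ¬ Even (m + n) := by
      rw [Int.not_even_iff_odd]; exact ⟨s + c, by rw [hs, hc2]; ring⟩
    -- it is enough to find the data
    suffices H : ∃ (u v : R⟦X⟧) (l : ℕ) (J K : R[X]), Good T G ((m : R) + n * a) u v ∧ k = 2 * l + 1 ∧
        OD b l (if Even (s + c) then 1 else -1) u J K by
      obtain ⟨u, v, l, J, K, g, hl, od⟩ := H
      have rs := od.toRS (by split_ifs <;> ring) hmodd hmnodd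
      rw [← hl] at rs
      refine ⟨u, v, _, _, g, rs, ?_⟩
      intro s' c' h1 h2
      have e1 : s' = s := by omega
      have e2 : c' = c := by omega
      subst e1; subst e2
      exact ⟨l, J, K, hl, od⟩
    rcases Nat.lt_or_ge 1 k with hk1 | hk1
    · -- sum
      obtain ⟨k₁, hk₁⟩ : ∃ k' : ℕ, (s + 1) ^ 2 + (s + 1) * c + 2 * c ^ 2 = (k' : ℤ) :=
        Int.eq_ofNat_of_zero_le (norm_nonneg' _ _)
      obtain ⟨k₂, hk₂⟩ : ∃ k' : ℕ, s ^ 2 + s * c + 2 * c ^ 2 = (k' : ℤ) :=
        Int.eq_ofNat_of_zero_le (norm_nonneg' _ _)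
      have hkk : k + 1 = 2 * (k₁ + k₂) := by
        zify; rw [← hk, ← hk₁, ← hk₂, hs, hc2]; ring
      obtain ⟨u₁, v₁, A, B, g₁, rs₁, -⟩ := ih k₁ (by omega) _ _ hk₁
      obtain ⟨u₂, v₂, E, D, g₂, rs₂, -⟩ := ih k₂ (by omega) _ _ hk₂
      obtain ⟨w, hw, hw0⟩ := exists_inv (1 - X ^ 2 * u₁ ^ 2 * u₂ ^ 2) (by simp)
      have gp := g₁.add g₂ hw hw0
      have hw' : (1 - X ^ 2 * u₁ ^ 2 * (-u₂) ^ 2) * w = 1 := by rw [neg_sq]; exact hw
      have gm := g₁.add g₂.neg hw' hw0
      have e1 : (((s + 1 : ℤ) : R) + (c : ℤ) * a) + -((s : R) + (c : ℤ) * a) = 1 := by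
        push_cast; ring
      rw [e1] at gm
      have hm1 := (gm.unique one).1
      have hup : (u₁ * v₂ + u₂ * v₁) * w = (u₁ ^ 2 - u₂ ^ 2) * w := by
        have c1 := g₁.curve
        have c2 := g₂.curve
        calc (u₁ * v₂ + u₂ * v₁) * w
            = ((u₁ * v₂ + u₂ * v₁) * w) * ((u₁ * v₂ + -u₂ * v₁) * w) := by rw [hm1, mul_one]
          _ = (u₁ ^ 2 * v₂ ^ 2 - u₂ ^ 2 * v₁ ^ 2) * w ^ 2 := by ring
          _ = (u₁ ^ 2 - u₂ ^ 2) * w := by
            rw [c1, c2]
            linear_combination ((u₁ ^ 2 - u₂ ^ 2) * w) * hw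
      obtain ⟨J, K, od⟩ := OD.ofSum hb0 (by omega) rs₁ rs₂ hw
      rw [← hup] at od
      have e3 : (m : R) + n * a = (((s + 1 : ℤ) : R) + (c : ℤ) * a) + ((s : R) + (c : ℤ) * a) := by
        rw [hs, hc2]; push_cast; ring
      rw [← e3] at gp
      exact ⟨_, _, k₁ + k₂ - 1, J, K, gp, by omega, od⟩
    · -- `±1`
      have hk1' : k = 1 := by omega
      subst hk1'
      obtain ⟨h1 | h1, h2⟩ := norm_eq_one' (by simpa using hk)
      · have hs0 : s = 0 := by omega
        have hc0 : c = 0 := by omega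
        subst hs0; subst hc0
        refine ⟨1, f * G, 0, 1, 1, ?_, rfl, ?_⟩
        · rw [h1, h2]; simpa using one
        · refine ⟨by simp, by simp, by simp, by simp, by simp, by simp⟩
      · have hs0 : s = -1 := by omega
        have hc0 : c = 0 := by omega
        subst hs0; subst hc0
        refine ⟨-1, f * G, 0, -1, 1, ?_, rfl, ?_⟩
        · rw [h1, h2]; simpa using one.neg
        · refine ⟨by simp, by simp, by simp, by simp, by simp, by simp⟩
  · -- both odd
    obtain ⟨s, hs⟩ := hm.add_odd hn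
    obtain ⟨k', hk'⟩ : ∃ k' : ℕ, (-n) ^ 2 + (-n) * s + 2 * s ^ 2 = (k' : ℤ) :=
      Int.eq_ofNat_of_zero_le (norm_nonneg' _ _)
    have hm2 : m = 2 * s - n := by omega
    have hkk : k = 2 * k' := by
      zify; rw [← hk, ← hk', hm2]; ring
    obtain ⟨u, v, U, V, g, rs, -⟩ := ih k' (by omega) _ _ hk'
    obtain ⟨w, hw, hw0⟩ := exists_inv (1 - C (b ^ 2) * (X * u ^ 2)) (by simp)
    have g' := g.bmul hp hw hw0
    have rs' := rs.bmul g hp.hT hp.br hw
    have e1 : -n + 2 * s = m := by omega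
    rw [e1, neg_neg, ← hkk] at rs'
    have e3 : (m : R) + n * a = b * (((-n : ℤ) : R) + (s : R) * a) := by
      rw [hm2]; push_cast
      linear_combination (n : R) * hp.add - (s : R) * hp.mul
    rw [← e3] at g'
    refine ⟨_, _, _, _, g', rs', ?_⟩
    intro s' c h1 h2
    rw [Int.odd_iff] at hn
    omega

end Pool.Agent.H61.Sun
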