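import Mathlib
import Pool.Agent.H61.Sun.Rat

set_option autoImplicit false
set_option linter.unusedSectionVars false

namespace Pool.Agent.H61.Sun

open PowerSeries

variable {R : Type*} [CommRing R]

theorem isCoprime_natCast {p n : ℕ} (hp : p.Prime) (h : ¬ p ∣ n) : IsCoprime (p : R) (n : R) := by
  have h1 : IsCoprime (p : ℤ) (n : ℤ) := Nat.isCoprime_iff_coprime.mpr ((hp.coprime_iff_not_dvd).mpr h)
  have h2 := h1.map (Int.castRingHom R)
  simpa using h2

/-- All coefficients up to `n` are divisible by `d`. -/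
def Dv (d : R) (n : ℕ) (F : R⟦X⟧) : Prop := ∀ k ≤ n, d ∣ coeff k F

theorem Dv.mul_right {d : R} {n : ℕ} {F : R⟦X⟧} (h : Dv d n F) (H : R⟦X⟧) : Dv d n (F * H) := by
  intro k hk
  rw [coeff_mul]
  refine Finset.dvd_sum (fun i hi => ?_)
  rw [Finset.HasAntidiagonal.mem_antidiagonal] at hi
  exact (h i.1 (by omega)).mul_right _

theorem Dv.mul_left {d : R} {n : ℕ} {F : R⟦X⟧} (h : Dv d n F) (H : R⟦X⟧) : Dv d n (H * F) := by
  rw [mul_comm]; exact h.mul_right H

theorem Dv.add {d : R} {n : ℕ} {F H : R⟦X⟧} (h : Dv d n F) (h' : Dv d n H) : Dv d n (F + H) := by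
  intro k hk
  rw [map_add]
  exact dvd_add (h k hk) (h' k hk)

theorem Dv.neg {d : R} {n : ℕ} {F : R⟦X⟧} (h : Dv d n F) : Dv d n (-F) := by
  intro k hk
  rw [map_neg]
  exact (h k hk).neg_right

variable [IsDomain R] [CharZero R]
variable {a b r T : R} {G : R⟦X⟧}

theorem partA (hp : Par a b r T) {f : R⟦X⟧} (hf : f = 1 - C T * X + X ^ 2)
    (hG : G ^ 2 * f = 1) (hG0 : constantCoeff G = 1)
    {p N : ℕ} (hpp : p.Prime) (hN : p = 2 * N + 1) (hpR : Prime (p : R)) (h2 : IsUnit (2 : R))
    (hF : (p : R) ∣ b ^ (2 * N) - 1) {x y s : ℤ} (hxy : (p : ℤ) = x ^ 2 + 7 * y ^ 2)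
    (hs : x - y = 2 * s + 1) {π π' : R} (hπ : π = (x : R) - y + 2 * y * a)
    (hππ : π * π' = p) (hpπ : (p : R) ∣ π) :
    (p : R) ^ 2 ∣ coeff N G - (if Even (s + y) then 1 else -1) * π' := by
  obtain ⟨u, v, -, -, g, -, hod⟩ := exists_point hp hf hG hG0 p (x - y) (2 * y) (by rw [hxy]; ring)
  obtain ⟨l, J, K, hl, od⟩ := hod s y hs rfl
  have hlN : l = N := by omega
  subst hlN
  have eπ : ((x - y : ℤ) : R) + ((2 * y : ℤ) : R) * a = π := by rw [hπ]; push_cast; ring
  rw [eπ] at g
  -- divisibility of the lower coefficients of `u`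
  have hu : ∀ i, i < l → (p : R) ∣ coeff i u := by
    intro i hi
    have h1 := congrArg (coeff i) g.ode
    rw [map_add, coeff_th, mul_assoc (C π), coeff_C_mul] at h1
    have h3 : (p : R) ∣ ((2 * i + 1 : ℕ) : R) * coeff i u := by
      have : ((2 * i + 1 : ℕ) : R) * coeff i u = π * coeff i (v * G) := by
        rw [← h1]; push_cast; ring
      rw [this]; exact hpπ.mul_right _
    exact (isCoprime_natCast hpp (fun hd => by have := Nat.le_of_dvd (by omega) hd; omega)).dvd_of_dvd_mul_left h3
  have hJi : ∀ i, coeff i (J : R⟦X⟧) = J.coeff i := fun i => Polynomial.coeff_coe J i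
  have hKi : ∀ i, coeff i (K : R⟦X⟧) = K.coeff i := fun i => Polynomial.coeff_coe K i
  have hJlow : ∀ i, i < l → (p : R) ∣ J.coeff i := by
    intro i hi
    rw [← hJi, ← od.rel, coeff_mul]
    refine Finset.dvd_sum (fun j hj => ?_)
    rw [Finset.HasAntidiagonal.mem_antidiagonal] at hj
    exact (hu j.2 (by omega)).mul_left _
  -- `u_N ≡ J_N mod p`
  have huN : (p : R) ∣ J.coeff l - coeff l u := by
    rw [← hJi, ← od.rel, coeff_mul, Finset.Nat.sum_antidiagonal_eq_sum_range_succ_mk,
      Finset.sum_range_succ']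
    simp only [hKi, od.K0, one_mul, Nat.sub_zero, add_sub_cancel_right]
    refine Finset.dvd_sum (fun j hj => ?_)
    rw [Finset.mem_range] at hj
    exact (hu _ (by omega)).mul_left _
  have hnu : ¬ (p : R) ∣ coeff l u := by
    intro hd
    have h3 : (p : R) ∣ J.coeff l := by
      have := dvd_add huN hd
      rwa [sub_add_cancel] at this
    have h4 : (p : R) ∣ 1 := by
      rw [← od.top, pow_two]; exact h3.mul_right _
    exact hpR.not_isUnit (isUnit_of_dvd_one h4)
  -- the product `u θ(K)`
  have huK : ∀ k, (p : R) ∣ coeff k (u * th (K : R⟦X⟧)) := by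
    intro k
    have e : u * th (K : R⟦X⟧) = (J : R⟦X⟧) + th (J : R⟦X⟧) - C π * (v * G * K) := by
      rw [← od.rel, th_mul]
      linear_combination (- (K : R⟦X⟧)) * g.ode
    rw [e, map_sub, map_add, coeff_th, coeff_C_mul, hJi]
    refine dvd_sub ?_ (hpπ.mul_right _)
    have e2 : J.coeff k + 2 * (k : R) * J.coeff k = ((2 * k + 1 : ℕ) : R) * J.coeff k := by
      push_cast; ring
    rw [e2]
    rcases lt_trichotomy k l with h | h | h
    · exact (hJlow k h).mul_left _
    · rw [h, ← hN]; exact dvd_mul_right _ _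
    · rw [Polynomial.coeff_eq_zero_of_natDegree_lt (lt_of_le_of_lt od.degJ h), mul_zero]
      exact dvd_zero _
  have hK : ∀ j, 1 ≤ j → j ≤ l → (p : R) ∣ K.coeff j := by
    intro j
    induction j using Nat.strong_induction_on with
    | _ j ih =>
    intro hj1 hjl
    have h3 := huK (l + j)
    rw [coeff_mul] at h3
    have hmem : (l, j) ∈ Finset.HasAntidiagonal.antidiagonal (l + j) := by simp
    rw [← Finset.add_sum_erase _ _ hmem] at h3
    have h4 : (p : R) ∣ ∑ q ∈ (Finset.HasAntidiagonal.antidiagonal (l + j)).erase (l, j),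
        coeff q.1 u * coeff q.2 (th (K : R⟦X⟧)) := by
      refine Finset.dvd_sum (fun q hq => ?_)
      rw [Finset.mem_erase, Finset.HasAntidiagonal.mem_antidiagonal] at hq
      obtain ⟨hq1, hq2⟩ := hq
      rcases lt_trichotomy q.1 l with h | h | h
      · exact (hu _ h).mul_right _
      · exfalso; apply hq1
        ext
        · exact h
        · simp only; omega
      · rw [coeff_th, hKi]
        rcases Nat.eq_zero_or_pos q.2 with h0 | h0
        · rw [h0]; simp
        · exact ((ih q.2 (by omega) h0 (by omega)).mul_left _).mul_left _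
    have h5 := (dvd_add_left h4).mp h3
    simp only [coeff_th, hKi] at h5
    rcases hpR.dvd_or_dvd h5 with h6 | h6
    · exact absurd h6 hnu
    · have h7 : (p : R) ∣ ((2 * j : ℕ) : R) * K.coeff j := by push_cast; exact h6
      exact (isCoprime_natCast hpp (fun hd => by have := Nat.le_of_dvd (by omega) hd; omega)).dvd_of_dvd_mul_left h7
  -- `u_N ≡ J_N mod p²`
  have huN2 : (p : R) ^ 2 ∣ J.coeff l - coeff l u := by
    rw [← hJi, ← od.rel, coeff_mul, Finset.Nat.sum_antidiagonal_eq_sum_range_succ_mk,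
      Finset.sum_range_succ']
    simp only [hKi, od.K0, one_mul, Nat.sub_zero, add_sub_cancel_right]
    refine Finset.dvd_sum (fun j hj => ?_)
    rw [Finset.mem_range] at hj
    rw [pow_two]
    exact mul_dvd_mul (hK _ (by omega) (by omega)) (hu _ (by omega))
  -- the sign
  set σ : R := if Even (s + y) then 1 else -1 with hσ
  have hJσ : J.coeff l = σ := by
    have e1 : (p : R) ∣ J.eval (b ^ 2) - J.coeff l := by
      rw [Polynomial.eval_eq_sum_range' (Nat.lt_succ_of_le od.degJ), Finset.sum_range_succ, add_sub_assoc]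
      refine dvd_add (Finset.dvd_sum (fun j hj => ?_)) ?_
      · rw [Finset.mem_range] at hj
        exact (hJlow j hj).mul_right _
      · have : J.coeff l * (b ^ 2) ^ l - J.coeff l = J.coeff l * (b ^ (2 * l) - 1) := by
          rw [← pow_mul]; ring
        rw [this]; exact hF.mul_left _
    have e2 : (p : R) ∣ K.eval (b ^ 2) - 1 := by
      rw [Polynomial.eval_eq_sum_range' (Nat.lt_succ_of_le od.degK), Finset.sum_range_succ', od.K0]
      simp only [pow_zero, mul_one, add_sub_cancel_right]
      refine Finset.dvd_sum (fun j hj => ?_)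
      rw [Finset.mem_range] at hj
      exact (hK _ (by omega) (by omega)).mul_right _
    have e3 : (p : R) ∣ J.coeff l - σ := by
      have h3 : J.coeff l - σ = σ * (K.eval (b ^ 2) - 1) - (J.eval (b ^ 2) - J.coeff l) := by
        rw [od.ev]; ring
      rw [h3]
      exact dvd_sub (e2.mul_left _) e1
    have hσ2 : σ ^ 2 = 1 := by rw [hσ]; split_ifs <;> ring
    have h3 : (J.coeff l - σ) * (J.coeff l + σ) = 0 := by
      linear_combination od.top - hσ2
    rcases mul_eq_zero.mp h3 with h4 | h4
    · exact sub_eq_zero.mp h4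
    · exfalso
      have h5 : (p : R) ∣ 2 * σ := by
        have : 2 * σ = (J.coeff l + σ) - (J.coeff l - σ) := by ring
        rw [this, h4, zero_sub]; exact e3.neg_right
      have h6 : (p : R) ∣ 2 := by
        have : (2 : R) = 2 * σ * σ := by rw [mul_assoc, ← pow_two, hσ2, mul_one]
        rw [this]; exact h5.mul_right _
      exact hpR.not_isUnit (isUnit_of_dvd_unit h6 h2)
  -- `v ≡ 1`
  have hv : Dv ((p : R) ^ 2) l (v - 1) := by
    have hXu : Dv ((p : R) ^ 2) l (X * u ^ 2) := by
      intro k hk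
      rcases k with _ | k
      · simp
      · rw [coeff_succ_X_mul, pow_two u, coeff_mul]
        refine Finset.dvd_sum (fun j hj => ?_)
        rw [Finset.HasAntidiagonal.mem_antidiagonal] at hj
        rw [pow_two]
        exact mul_dvd_mul (hu _ (by omega)) (hu _ (by omega))
    have hu2 : IsUnit (v + 1) := by
      rw [isUnit_iff_constantCoeff, map_add, g.cv, map_one]
      norm_num; exact h2
    obtain ⟨w, hw⟩ := hu2.exists_right_inv
    have e : v - 1 = (X * u ^ 2) * ((- C T + X * u ^ 2) * w) := by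
      calc v - 1 = (v ^ 2 - 1) * w := by linear_combination (1 - v) * hw
        _ = _ := by rw [g.curve]; ring
    rw [e]
    exact hXu.mul_right _
  -- conclusion
  have hfin := congrArg (coeff l) g.ode
  rw [map_add, coeff_th, mul_assoc (C π), coeff_C_mul] at hfin
  have e1 : coeff l (v * G) = coeff l G + coeff l ((v - 1) * G) := by
    rw [← map_add]; congr 1; ring
  obtain ⟨t, ht⟩ := (hv.mul_right G) l le_rfl
  rw [e1, ht] at hfin
  have hπ0 : π ≠ 0 := by
    rintro h0
    rw [h0, zero_mul] at hππ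
    exact hpR.ne_zero hππ.symm
  have e2 : π' * coeff l u = coeff l G + (p : R) ^ 2 * t := by
    apply mul_left_cancel₀ hπ0
    rw [← hfin, ← mul_assoc, hππ, hN]
    push_cast; ring
  obtain ⟨t', ht'⟩ := huN2
  refine ⟨- t - π' * t', ?_⟩
  rw [hJσ] at ht'
  linear_combination - e2 - π' * ht'

end Pool.Agent.H61.Sun
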