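import Mathlib
import Pool.Agent.H61.Sun.PartA
import Pool.Agent.H61.Sun.Final

set_option autoImplicit false
set_option linter.unusedSectionVars false

namespace Pool.Agent.H61.Sun

open PowerSeries

section Gen

variable {R : Type*} [CommRing R] [IsDomain R] [CharZero R]

/-- Generating function of `binom(2k,k)/4^k`. -/
noncomputable def gen (ι : ℕ → R) : R⟦X⟧ := PowerSeries.mk (gg ι)

theorem gen_sq {ι : ℕ → R} (h4 : (4 : R) * ι 4 = 1) : gen ι ^ 2 * (1 - X) = 1 := by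
  have hode : th (gen ι) = X * (th (gen ι) + gen ι) := by
    ext n
    rcases n with _ | n
    · simp [coeff_th]
    · rw [coeff_succ_X_mul, map_add, coeff_th, coeff_th, gen, coeff_mk, coeff_mk]
      have h1 : ((n : R) + 1) * ((n + 1).centralBinom : R) = 2 * (2 * n + 1) * (n.centralBinom : R) := by
        have := Nat.succ_mul_centralBinom_succ n
        exact_mod_cast congrArg (Nat.cast : ℕ → R) this
      simp only [gg, pow_succ]
      push_cast
      linear_combination (2 * ι 4 ^ n * ι 4) * h1 + ((2 * n + 1) * (n.centralBinom : R) * ι 4 ^ n) * h4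
  have h1 : th (gen ι ^ 2 * (1 - X)) = 0 := by
    rw [th_mul, th_sq, th_sub, th_one, th_X]
    linear_combination (2 * gen ι) * hode
  have h2 : ∀ n, 1 ≤ n → coeff n (gen ι ^ 2 * (1 - X)) = 0 := by
    intro n hn
    have h3 := congrArg (coeff n) h1
    rw [coeff_th, map_zero] at h3
    have h4 : ((2 * n : ℕ) : R) ≠ 0 := by exact_mod_cast (by omega : 2 * n ≠ 0)
    push_cast at h4
    exact (mul_eq_zero.mp h3).resolve_left h4
  ext n
  rcases Nat.eq_zero_or_pos n with rfl | hn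
  · have : constantCoeff (gen ι) = 1 := by
      rw [← coeff_zero_eq_constantCoeff_apply, gen, coeff_mk, gg_zero]
    simp [this]
  · rw [h2 n hn, coeff_one, if_neg (by omega)]

/-- The inverse square root of `(1 - c X)(1 - d X)`. -/
noncomputable def GG (ι : ℕ → R) (c d : R) : R⟦X⟧ := rescale c (gen ι) * rescale d (gen ι)

theorem GG_sq {ι : ℕ → R} (h4 : (4 : R) * ι 4 = 1) {c d T : R} (hT : T = c + d) (hcd : c * d = 1) :
    GG ι c d ^ 2 * (1 - C T * X + X ^ 2) = 1 := by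
  have h1 := congrArg (rescale c) (gen_sq h4)
  have h2 := congrArg (rescale d) (gen_sq h4)
  rw [map_mul, map_pow, map_sub, map_one, rescale_X] at h1 h2
  have h3 : (C T : R⟦X⟧) = C c + C d := by rw [hT, map_add]
  have h5 : (C c : R⟦X⟧) * C d = 1 := by rw [← map_mul, hcd, map_one]
  rw [GG, h3]
  linear_combination (rescale d (gen ι) ^ 2 * (1 - C d * X)) * h1 + h2
    - ((rescale c (gen ι)) ^ 2 * (rescale d (gen ι)) ^ 2 * X ^ 2) * h5

theorem GG_const (ι : ℕ → R) (c d : R) : constantCoeff (GG ι c d) = 1 := by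
  have : constantCoeff (gen ι) = 1 := by
    rw [← coeff_zero_eq_constantCoeff_apply, gen, coeff_mk, gg_zero]
  rw [GG, map_mul, ← coeff_zero_eq_constantCoeff_apply, ← coeff_zero_eq_constantCoeff_apply,
    coeff_rescale, coeff_rescale]
  simp [this]

theorem coeff_GG (ι : ℕ → R) (c d : R) (N : ℕ) :
    coeff N (GG ι c d) = ∑ k ∈ Finset.range (N + 1), gg ι k * gg ι (N - k) * c ^ k * d ^ (N - k) := by
  rw [GG, coeff_mul, Finset.Nat.sum_antidiagonal_eq_sum_range_succ_mk]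
  refine Finset.sum_congr rfl (fun k _ => ?_)
  simp only [coeff_rescale, gen, coeff_mk]
  ring

end Gen

section Root

variable {p : ℕ} [hp : Fact p.Prime]

theorem isUnit_int {k : ℤ} (hk : ¬ (p : ℤ) ∣ k) : IsUnit (k : ℤ_[p]) := by
  rw [PadicInt.isUnit_iff]
  have h1 := PadicInt.norm_le_one (k : ℤ_[p])
  have h2 : ¬ ‖(k : ℤ_[p])‖ < 1 := by rwa [PadicInt.norm_int_lt_one_iff_dvd]
  exact le_antisymm h1 (not_lt.mp h2)

theorem exists_root (hp2 : p ≠ 2) {x y : ℤ} (hxy : (p : ℤ) = x ^ 2 + 7 * y ^ 2)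
    (hx : ¬ (p : ℤ) ∣ x) (hy : ¬ (p : ℤ) ∣ y) :
    ∃ w : ℤ_[p], w ^ 2 = -7 ∧ (p : ℤ_[p]) ∣ (x : ℤ_[p]) + y * w := by
  obtain ⟨Y, hY⟩ := (isUnit_int hy).exists_right_inv
  obtain ⟨Z, hZ⟩ := (isUnit_int hx).exists_right_inv
  have h2 : ¬ (p : ℤ) ∣ 2 := by
    intro hd
    have h1 : p ∣ 2 := by exact_mod_cast hd
    exact hp2 ((Nat.prime_dvd_prime_iff_eq hp.out Nat.prime_two).mp h1)
  have hu2 : IsUnit ((2 : ℤ) : ℤ_[p]) := isUnit_int h2
  set a : ℤ_[p] := - (x * Y) with ha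
  have e1 : a ^ 2 + 7 = (p : ℤ_[p]) * Y ^ 2 := by
    have h3 : (p : ℤ_[p]) = (x : ℤ_[p]) ^ 2 + 7 * (y : ℤ_[p]) ^ 2 := by exact_mod_cast congrArg (Int.cast : ℤ → ℤ_[p]) hxy
    rw [h3, ha]
    linear_combination (-7 * (y * Y + 1)) * hY
  have hua : IsUnit a := by
    rw [ha, IsUnit.neg_iff]
    exact (isUnit_int hx).mul (IsUnit.of_mul_eq_one y (by rw [mul_comm]; exact hY))
  have ev : ∀ c : ℤ_[p], (Polynomial.X ^ 2 + Polynomial.C 7 : Polynomial ℤ_[p]).aeval c = c ^ 2 + 7 := by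
    intro c
    simp
  have n1 : ‖(Polynomial.X ^ 2 + Polynomial.C 7 : Polynomial ℤ_[p]).aeval a‖ < 1 := by
    rw [ev, e1, PadicInt.norm_lt_one_iff_dvd]
    exact dvd_mul_right _ _
  have n2 : ‖(Polynomial.X ^ 2 + Polynomial.C 7 : Polynomial ℤ_[p]).derivative.aeval a‖ = 1 := by
    have : (Polynomial.X ^ 2 + Polynomial.C 7 : Polynomial ℤ_[p]).derivative.aeval a = ((2 : ℤ) : ℤ_[p]) * a := by
      simp
      left; norm_num
    rw [this, ← PadicInt.isUnit_iff]
    exact hu2.mul hua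
  obtain ⟨z, hz1, hz2, -⟩ := hensels_lemma (p := p) (F := (Polynomial.X ^ 2 + Polynomial.C 7 : Polynomial ℤ_[p])) (a := a)
    (by rw [n2]; simpa using n1)
  rw [n2] at hz2
  refine ⟨z, ?_, ?_⟩
  · rw [ev] at hz1
    linear_combination hz1
  · rw [PadicInt.norm_lt_one_iff_dvd] at hz2
    have : (x : ℤ_[p]) + y * z = y * (z - a) := by
      rw [ha]; linear_combination (-(x : ℤ_[p])) * hY
    rw [this]; exact hz2.mul_left _

end Root

end Pool.Agent.H61.Sun
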