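import Mathlib
import Pool.Agent.H61.Sun.Padic

set_option autoImplicit false
set_option linter.unusedSectionVars false

namespace Pool.Agent.H61.Sun

open PowerSeries

variable {p : ℕ} [hp : Fact p.Prime]

/-- Inverse of a natural number in `ℤ_[p]` (when it is a unit). -/
noncomputable def iR (p : ℕ) [Fact p.Prime] (n : ℕ) : ℤ_[p] := PadicInt.inv (n : ℤ_[p])

theorem iR_mul {n : ℕ} (hn : ¬ p ∣ n) : (n : ℤ_[p]) * iR p n = 1 := by
  have h1 : IsUnit ((n : ℤ) : ℤ_[p]) := isUnit_int (by exact_mod_cast hn)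
  rw [PadicInt.isUnit_iff] at h1
  exact PadicInt.mul_inv (by simpa using h1)

/-- The reduction modulo `p²`. -/
noncomputable def red (p : ℕ) [Fact p.Prime] : ℤ_[p] →+* ZMod (p ^ 2) := PadicInt.toZModPow 2

theorem red_eq_zero {z : ℤ_[p]} : red p z = 0 ↔ (p : ℤ_[p]) ^ 2 ∣ z := by
  rw [← Ideal.mem_span_singleton, ← PadicInt.ker_toZModPow, RingHom.mem_ker]
  rfl

theorem fermat {c : ℤ_[p]} (hc : IsUnit c) : (p : ℤ_[p]) ∣ c ^ (p - 1) - 1 := by
  rw [← Ideal.mem_span_singleton, ← PadicInt.maximalIdeal_eq_span_p, ← PadicInt.ker_toZMod,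
    RingHom.mem_ker, map_sub, map_pow, map_one]
  have h1 : PadicInt.toZMod c ≠ 0 := (hc.map PadicInt.toZMod).ne_zero
  rw [ZMod.pow_card_sub_one_eq_one h1, sub_self]

theorem ctx {N : ℕ} (hN : p = 2 * N + 1) : Ctx p N (fun n => red p (iR p n)) where
  prime := hp.out
  hN := hN
  sq := by
    have := ZMod.natCast_self (p ^ 2)
    push_cast at this
    exact this
  inv := fun n hn => by
    rw [← map_natCast (red p), ← map_mul, iR_mul hn, map_one]

theorem red_gg (k : ℕ) : red p (gg (iR p) k) = gg (fun n => red p (iR p n)) k := by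
  simp [gg]

/-- The integral version of `binom(-1/4,k)`. -/
noncomputable def tau (p : ℕ) [Fact p.Prime] : ℕ → ℤ_[p]
  | 0 => 1
  | (k + 1) => -(4 * k + 1) * iR p (4 * (k + 1)) * tau p k

theorem tau_succ (hp2 : 2 < p) {k : ℕ} (hk : k + 1 < p) :
    4 * ((k : ℤ_[p]) + 1) * tau p (k + 1) = -(4 * k + 1) * tau p k := by
  have hn : ¬ p ∣ 4 * (k + 1) := by
    rw [hp.out.dvd_mul, not_or]
    constructor
    · intro hd
      have h4 : p ∣ 2 ^ 2 := by simpa using hd
      have := (Nat.prime_dvd_prime_iff_eq hp.out Nat.prime_two).mp (hp.out.dvd_of_dvd_pow h4)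
      omega
    · intro hd
      have := Nat.le_of_dvd (by omega) hd
      omega
  have h1 := iR_mul (p := p) hn
  push_cast at h1
  rw [tau]
  linear_combination (-(4 * (k : ℤ_[p]) + 1) * tau p k) * h1

theorem tseq (hp2 : 2 < p) : Tseq p (fun k => red p (tau p k ^ 2)) where
  zero := by simp [tau]
  succ := fun k hk => by
    have h1 : 16 * ((k : ℤ_[p]) + 1) ^ 2 * tau p (k + 1) ^ 2 = (4 * k + 1) ^ 2 * tau p k ^ 2 := by
      have := tau_succ hp2 hk
      linear_combination (4 * ((k : ℤ_[p]) + 1) * tau p (k + 1) - (4 * k + 1) * tau p k) * this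
    have h2 := congrArg (red p) h1
    simp only [map_mul, map_pow, map_add, map_one, map_ofNat, map_natCast] at h2 ⊢
    exact h2

/-- The two integral sums. -/
noncomputable def Sp (p : ℕ) [Fact p.Prime] : ℤ_[p] := ∑ k ∈ Finset.range p, tau p k ^ 2 * 64 ^ k

noncomputable def Sm (p : ℕ) [Fact p.Prime] : ℤ_[p] :=
  ∑ k ∈ Finset.range p, tau p k ^ 2 * (iR p 4 ^ 3) ^ k

theorem core (hp2 : 2 < p) {N : ℕ} (hN : p = 2 * N + 1) {x y s : ℤ}
    (hxy : (p : ℤ) = x ^ 2 + 7 * y ^ 2) (hx : ¬ (p : ℤ) ∣ x) (hy : ¬ (p : ℤ) ∣ y)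
    (hs : x - y = 2 * s + 1) :
    ∃ w : ℤ_[p], w ^ 2 = -7 ∧ (p : ℤ_[p]) ∣ (x : ℤ_[p]) + y * w ∧
      (∀ ν : ℕ, 4 * ν + 1 = p →
        (p : ℤ_[p]) ^ 2 ∣ Sp p - (if Even (s + y) then 1 else -1) * (x - y * w) ∧
        (p : ℤ_[p]) ^ 2 ∣ Sm p - (-1) ^ ν * ((if Even (s + y) then 1 else -1) * (x - y * w))) ∧
      (∀ ν : ℕ, 4 * ν + 1 = 3 * p →
        (p : ℤ_[p]) ^ 2 ∣ Sp p - 3 * w * ((if Even (s + y) then 1 else -1) * (x - y * w)) ∧
        (p : ℤ_[p]) ^ 2 ∣ 8 * Sm p - (-1) ^ ν * (-1) ^ N *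
          (3 * w * ((if Even (s + y) then 1 else -1) * (x - y * w)))) := by
  obtain ⟨w, hw, hpw⟩ := exists_root (by omega) hxy hx hy
  refine ⟨w, hw, hpw, ?_⟩
  have hn2 : ¬ p ∣ 2 := fun hd => by
    have := (Nat.prime_dvd_prime_iff_eq hp.out Nat.prime_two).mp hd
    omega
  have hn4 : ¬ p ∣ 4 := fun hd => by
    have h4 : p ∣ 2 ^ 2 := by simpa using hd
    exact hn2 (hp.out.dvd_of_dvd_pow h4)
  have h2 : (2 : ℤ_[p]) * iR p 2 = 1 := by simpa using iR_mul (p := p) hn2
  have h4 : (4 : ℤ_[p]) * iR p 4 = 1 := by simpa using iR_mul (p := p) hn4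
  set h := iR p 2 with hh
  set a : ℤ_[p] := (1 + w) * h with ha
  set b : ℤ_[p] := (1 - w) * h with hb
  have hab : a + b = 1 := by rw [ha, hb]; linear_combination h2
  have hmul : a * b = 2 := by
    rw [ha, hb]; linear_combination (-h ^ 2) * hw + 2 * (2 * h + 1) * h2
  have hbr : b * (a * h) = 1 := by linear_combination h * hmul + h2
  have har : a * (b * h) = 1 := by linear_combination h * hmul + h2
  have par : Par a b (a * h) (b ^ 2 + (a * h) ^ 2) :=
    ⟨hab, hmul, by linear_combination (-a) * h2, hbr, rfl⟩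
  have e2a : 2 * a = 1 + w := by rw [ha]; linear_combination (1 + w) * h2
  have e2b : 2 * b = 1 - w := by rw [hb]; linear_combination (1 - w) * h2
  have hua : IsUnit a := IsUnit.of_mul_eq_one _ har
  have hub : IsUnit b := IsUnit.of_mul_eq_one _ hbr
  have hu2 : IsUnit (2 : ℤ_[p]) := IsUnit.of_mul_eq_one _ h2
  have hxyR : (p : ℤ_[p]) = (x : ℤ_[p]) ^ 2 + 7 * (y : ℤ_[p]) ^ 2 := by
    exact_mod_cast congrArg (Int.cast : ℤ → ℤ_[p]) hxy
  have hNp : p - 1 = 2 * N := by omega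
  have fa := fermat hua
  have fb := fermat hub
  rw [hNp] at fa fb
  have hπeq : (x : ℤ_[p]) - y + 2 * y * a = x + y * w := by linear_combination (y : ℤ_[p]) * e2a
  have main := partA par (f := 1 - C (b ^ 2 + (a * h) ^ 2) * X + X ^ 2) rfl
    (GG_sq (ι := iR p) h4 (c := b ^ 2) (d := (a * h) ^ 2) rfl
      (by rw [← mul_pow, hbr, one_pow]))
    (GG_const _ _ _) hp.out hN (PadicInt.prime_p) hu2 fb hxy hs (π := (x : ℤ_[p]) - y + 2 * y * a)
    (π' := (x : ℤ_[p]) - y * w) rfl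
    (by rw [hπeq]; linear_combination (-(y : ℤ_[p]) ^ 2) * hw - hxyR)
    (by rw [hπeq]; exact hpw)
  rw [← red_eq_zero, map_sub, sub_eq_zero] at main
  obtain ⟨e₁, he₁⟩ := fa
  obtain ⟨e₂, he₂⟩ := fb
  have ha' : (red p a) ^ (2 * N) = 1 + p * red p e₁ := by
    rw [← map_pow, ← map_natCast (red p) p, ← map_mul, ← he₁, map_sub, map_one]; ring
  have hb' : (red p b) ^ (2 * N) = 1 + p * red p e₂ := by
    rw [← map_pow, ← map_natCast (red p) p, ← map_mul, ← he₂, map_sub, map_one]; ring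
  have q : Quad (red p a) (red p b) (red p (a * h)) (red p (b * h)) :=
    ⟨by rw [← map_add, hab, map_one], by rw [← map_mul, hmul, map_ofNat],
      by rw [← map_mul, hbr, map_one], by rw [← map_mul, har, map_one]⟩
  have hG : (∑ k ∈ Finset.range (N + 1), gg (fun n => red p (iR p n)) k
      * gg (fun n => red p (iR p n)) (N - k) * ((red p b) ^ 2) ^ k * ((red p (a * h)) ^ 2) ^ (N - k))
      = red p ((if Even (s + y) then 1 else -1) * (x - y * w)) := by
    rw [← main, coeff_GG, map_sum]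
    refine Finset.sum_congr rfl (fun k _ => ?_)
    rw [← red_gg, ← red_gg]
    simp only [map_mul, map_pow]
  have eSp : red p (Sp p) = ∑ k ∈ Finset.range p, red p (tau p k ^ 2) * 64 ^ k := by
    rw [Sp, map_sum]
    refine Finset.sum_congr rfl (fun k _ => ?_)
    rw [map_mul, map_pow (red p) (64 : ℤ_[p]), map_ofNat]
  have eSm : red p (Sm p) = ∑ k ∈ Finset.range p, red p (tau p k ^ 2) * ((red p (iR p 4)) ^ 3) ^ k := by
    rw [Sm, map_sum]
    refine Finset.sum_congr rfl (fun k _ => ?_)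
    rw [map_mul, map_pow (red p) (iR p 4 ^ 3), map_pow (red p) (iR p 4)]
  have ew : 2 * red p a - 1 = red p w := by
    have := congrArg (red p) e2a
    rw [map_mul, map_ofNat, map_add, map_one] at this
    rw [this]; ring
  constructor
  · intro ν hν
    obtain ⟨f1, f2⟩ := (ctx hN).final1 q ha' hb' (tseq hp2) hν
    simp only [hG] at f1 f2
    constructor
    · rw [← red_eq_zero, map_sub, eSp, f1, sub_self]
    · rw [← red_eq_zero, map_sub, eSm, f2, map_mul (red p) ((-1) ^ ν), map_pow, map_neg, map_one, sub_self]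
  · intro ν hν
    obtain ⟨f1, f2⟩ := (ctx hN).final3 q ha' hb' (tseq hp2) hν
    simp only [hG, ew] at f1 f2
    constructor
    · rw [← red_eq_zero, map_sub, eSp, f1, map_mul (red p) (3 * w), map_mul (red p) 3, map_ofNat, sub_self]
    · rw [← red_eq_zero, map_sub, map_mul (red p) 8, map_ofNat, eSm, f2, map_mul (red p) ((-1) ^ ν * (-1) ^ N),
        map_mul (red p) (3 * w), map_mul (red p) 3, map_ofNat, map_mul (red p) ((-1) ^ ν), map_pow, map_pow,
        map_neg, map_one, sub_eq_zero]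
      ring

end Pool.Agent.H61.Sun
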