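import Mathlib

set_option autoImplicit false

namespace Pool.Agent.H61.Sun

instance fact_seven : Fact (Nat.Prime 7) := ⟨by norm_num⟩

theorem leg_seven {n : ℤ} (h : n = 1 ∨ n = 2 ∨ n = 4) : legendreSym 7 n = 1 := by
  rcases h with h | h | h
  · rw [h]
    exact (legendreSym.eq_one_iff 7 (by decide)).mpr ⟨1, by decide⟩
  · rw [h]
    exact (legendreSym.eq_one_iff 7 (by decide)).mpr ⟨3, by decide⟩
  · rw [h]
    exact (legendreSym.eq_one_iff 7 (by decide)).mpr ⟨2, by decide⟩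

theorem isSquare_neg_seven {p : ℕ} [hp : Fact p.Prime] (hp2 : 2 < p)
    (h7 : p % 7 = 1 ∨ p % 7 = 2 ∨ p % 7 = 4) : IsSquare ((-7 : ℤ) : ZMod p) := by
  have hodd : p % 2 = 1 := by
    rcases hp.out.eq_two_or_odd with h | h <;> omega
  have hp7 : p ≠ 7 := by rintro rfl; omega
  have h0 : ((-7 : ℤ) : ZMod p) ≠ 0 := by
    intro h
    rw [ZMod.intCast_zmod_eq_zero_iff_dvd] at h
    have h1 : (p : ℤ) ∣ 7 := by simpa using h
    have h2 : p ∣ 7 := by exact_mod_cast h1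
    exact hp7 ((Nat.prime_dvd_prime_iff_eq hp.out (by norm_num)).mp h2)
  rw [← legendreSym.eq_one_iff p h0]
  have e1 : (-7 : ℤ) = (-1) * 7 := by norm_num
  rw [e1, legendreSym.mul, legendreSym.at_neg_one (by omega), ZMod.χ₄_eq_neg_one_pow hodd]
  have qr := legendreSym.quadratic_reciprocity (p := 7) (q := p) (by norm_num) (by omega) (by omega)
  have e2 : legendreSym 7 (p : ℤ) = 1 := by
    rw [legendreSym.mod]
    have h8 : ((p : ℤ) % ((7 : ℕ) : ℤ)) = 1 ∨ ((p : ℤ) % ((7 : ℕ) : ℤ)) = 2 ∨ ((p : ℤ) % ((7 : ℕ) : ℤ)) = 4 := by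
      omega
    exact leg_seven h8
  rw [e2, mul_one] at qr
  have e3 : legendreSym p 7 = (-1) ^ (3 * (p / 2)) := by
    have h9 : ((7 : ℕ) : ℤ) = 7 := by norm_num
    rw [h9] at qr
    rw [qr]
  rw [e3, ← pow_add]
  have h10 : p / 2 + 3 * (p / 2) = 2 * (2 * (p / 2)) := by ring
  rw [h10, pow_mul]; norm_num

theorem thue {p : ℕ} [hp : Fact p.Prime] (c : ZMod p) :
    ∃ a b : ℤ, (a ≠ 0 ∨ b ≠ 0) ∧ a ^ 2 < p ∧ b ^ 2 < p ∧ (a : ZMod p) = c * b := by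
  set m := Nat.sqrt p with hm
  have hm1 : m * m ≤ p := Nat.sqrt_le p
  have hm2 : p < (m + 1) * (m + 1) := Nat.lt_succ_sqrt p
  have hm3 : m * m < p := by
    refine lt_of_le_of_ne hm1 (fun h => ?_)
    have h1 : m ∣ p := ⟨m, h.symm⟩
    rcases (Nat.dvd_prime hp.out).mp h1 with h2 | h2
    · rw [h2] at h
      have := hp.out.two_le
      omega
    · rw [h2] at h
      have := hp.out.two_le
      nlinarith
  have hcard : (Finset.univ : Finset (ZMod p)).card < (Finset.range (m + 1) ×ˢ Finset.range (m + 1)).card := by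
    rw [Finset.card_univ, ZMod.card, Finset.card_product, Finset.card_range]; exact hm2
  obtain ⟨u, hu, v, hv, huv, he⟩ := Finset.exists_ne_map_eq_of_card_lt_of_maps_to hcard
    (f := fun q : ℕ × ℕ => (q.1 : ZMod p) - c * q.2) (fun q _ => Finset.mem_coe.mpr (Finset.mem_univ _))
  rw [Finset.mem_product, Finset.mem_range, Finset.mem_range] at hu hv
  refine ⟨(u.1 : ℤ) - v.1, (u.2 : ℤ) - v.2, ?_, ?_, ?_, ?_⟩
  · by_contra hcon
    push Not at hcon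
    apply huv
    ext
    · have := hcon.1; omega
    · have := hcon.2; omega
  · have h1 : |(u.1 : ℤ) - v.1| ≤ m := by rw [abs_le]; constructor <;> omega
    have h2 : ((u.1 : ℤ) - v.1) ^ 2 ≤ (m : ℤ) ^ 2 := by
      rw [← sq_abs]; exact pow_le_pow_left₀ (abs_nonneg _) h1 2
    have h3 : (m : ℤ) * m < p := by exact_mod_cast hm3
    nlinarith
  · have h1 : |(u.2 : ℤ) - v.2| ≤ m := by rw [abs_le]; constructor <;> omega
    have h2 : ((u.2 : ℤ) - v.2) ^ 2 ≤ (m : ℤ) ^ 2 := by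
      rw [← sq_abs]; exact pow_le_pow_left₀ (abs_nonneg _) h1 2
    have h3 : (m : ℤ) * m < p := by exact_mod_cast hm3
    nlinarith
  · push_cast
    linear_combination he

theorem exists_rep {p : ℕ} [hp : Fact p.Prime] (hp2 : 2 < p)
    (h7 : p % 7 = 1 ∨ p % 7 = 2 ∨ p % 7 = 4) : ∃ x y : ℤ, (p : ℤ) = x ^ 2 + 7 * y ^ 2 := by
  obtain ⟨c, hc⟩ := isSquare_neg_seven hp2 h7
  obtain ⟨a, b, hab, ha, hb, he⟩ := thue c
  have hodd : p % 2 = 1 := by
    rcases hp.out.eq_two_or_odd with h | h <;> omega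
  have hdvd : (p : ℤ) ∣ a ^ 2 + 7 * b ^ 2 := by
    rw [← ZMod.intCast_zmod_eq_zero_iff_dvd]
    push_cast at hc ⊢
    rw [he]
    linear_combination (-(b : ZMod p) ^ 2) * hc
  obtain ⟨k, hk⟩ := hdvd
  have hp0 : (0 : ℤ) < p := by exact_mod_cast hp.out.pos
  have hpos : 0 < a ^ 2 + 7 * b ^ 2 := by
    rcases hab with h | h
    · have := pow_pos (abs_pos.mpr h) 2
      rw [sq_abs] at this
      nlinarith [sq_nonneg b]
    · have := pow_pos (abs_pos.mpr h) 2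
      rw [sq_abs] at this
      nlinarith [sq_nonneg a]
  have hk1 : 0 < k := by
    by_contra h
    push Not at h
    nlinarith
  have hk8 : k < 8 := by
    by_contra h
    push Not at h
    nlinarith
  have hpodd : (p : ℤ) % 2 = 1 := by omega
  have hp3 : ¬ (3 : ℤ) ∣ p := by
    intro h
    have h1 : 3 ∣ p := by exact_mod_cast h
    have h2 := (Nat.prime_dvd_prime_iff_eq (by norm_num) hp.out).mp h1
    omega
  have hp5 : ¬ (5 : ℤ) ∣ p := by
    intro h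
    have h1 : 5 ∣ p := by exact_mod_cast h
    have h2 := (Nat.prime_dvd_prime_iff_eq (by norm_num) hp.out).mp h1
    omega
  have m3 : ∀ a b : ZMod 3, a ^ 2 + 7 * b ^ 2 = 0 → a = 0 ∧ b = 0 := by decide
  have m5 : ∀ a b : ZMod 5, a ^ 2 + 7 * b ^ 2 = 0 → a = 0 ∧ b = 0 := by decide
  have m82 : ∀ a b : ZMod 8, a ^ 2 + 7 * b ^ 2 ≠ 2 ∧ a ^ 2 + 7 * b ^ 2 ≠ 6 := by decide
  have m84 : ∀ a b : ZMod 8, a ^ 2 + 7 * b ^ 2 = 4 → 4 * a = 0 ∧ 4 * b = 0 := by decide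
  have m7 : ∀ a b : ZMod 7, a ^ 2 + 7 * b ^ 2 = 0 → a = 0 := by decide
  -- divisibility by three
  have d3 : ¬ (3 : ℤ) ∣ k := by
    rintro ⟨k', hk'⟩
    have h1 : ((a ^ 2 + 7 * b ^ 2 : ℤ) : ZMod 3) = 0 := by
      rw [ZMod.intCast_zmod_eq_zero_iff_dvd, hk, hk']
      exact ⟨p * k', by push_cast; ring⟩
    push_cast at h1
    obtain ⟨h2, h3⟩ := m3 _ _ h1
    rw [ZMod.intCast_zmod_eq_zero_iff_dvd] at h2 h3
    obtain ⟨s, hs⟩ := h2
    obtain ⟨t, ht⟩ := h3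
    rw [hs, ht, hk'] at hk
    push_cast at hk
    have h4 : (p : ℤ) * k' = 3 * (s ^ 2 + 7 * t ^ 2) := by linarith
    have h5 : (3 : ℤ) ∣ p * k' := ⟨_, h4⟩
    rcases (Int.prime_three).dvd_or_dvd h5 with h6 | h6
    · exact hp3 h6
    · have : k' = 1 ∨ k' = 2 := by omega
      omega
  have d5 : ¬ (5 : ℤ) ∣ k := by
    rintro ⟨k', hk'⟩
    have h1 : ((a ^ 2 + 7 * b ^ 2 : ℤ) : ZMod 5) = 0 := by
      rw [ZMod.intCast_zmod_eq_zero_iff_dvd, hk, hk']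
      exact ⟨p * k', by push_cast; ring⟩
    push_cast at h1
    obtain ⟨h2, h3⟩ := m5 _ _ h1
    rw [ZMod.intCast_zmod_eq_zero_iff_dvd] at h2 h3
    obtain ⟨s, hs⟩ := h2
    obtain ⟨t, ht⟩ := h3
    have hk1' : k' = 1 := by omega
    rw [hs, ht, hk', hk1'] at hk
    push_cast at hk
    exact hp5 ⟨s ^ 2 + 7 * t ^ 2, by linarith⟩
  have hcases : k = 1 ∨ k = 2 ∨ k = 4 ∨ k = 7 := by omega
  rcases hcases with rfl | rfl | rfl | rfl
  · exact ⟨a, b, by linarith⟩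
  · exfalso
    obtain ⟨q, hq⟩ : ∃ q : ℤ, (p : ℤ) = 2 * q + 1 := ⟨p / 2, by omega⟩
    have h1 := congrArg (Int.cast : ℤ → ZMod 8) hk
    rw [hq] at h1
    push_cast at h1
    have h2 : ∀ q : ZMod 8, (2 * q + 1) * 2 = 2 ∨ (2 * q + 1) * 2 = 6 := by decide
    rcases h2 (q : ZMod 8) with h3 | h3
    · exact (m82 a b).1 (by rw [h1, h3])
    · exact (m82 a b).2 (by rw [h1, h3])
  · obtain ⟨q, hq⟩ : ∃ q : ℤ, (p : ℤ) = 2 * q + 1 := ⟨p / 2, by omega⟩
    have h1 := congrArg (Int.cast : ℤ → ZMod 8) hk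
    rw [hq] at h1
    push_cast at h1
    have h2 : ∀ q : ZMod 8, (2 * q + 1) * 4 = 4 := by decide
    rw [h2] at h1
    obtain ⟨h3, h4⟩ := m84 _ _ h1
    have h3' : ((4 * a : ℤ) : ZMod 8) = 0 := by push_cast; exact h3
    have h4' : ((4 * b : ℤ) : ZMod 8) = 0 := by push_cast; exact h4
    rw [ZMod.intCast_zmod_eq_zero_iff_dvd] at h3' h4'
    obtain ⟨s, hs⟩ : ∃ s, a = 2 * s := ⟨a / 2, by omega⟩
    obtain ⟨t, ht⟩ : ∃ t, b = 2 * t := ⟨b / 2, by omega⟩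
    rw [hs, ht] at hk
    exact ⟨s, t, by linarith⟩
  · have h1 : ((a ^ 2 + 7 * b ^ 2 : ℤ) : ZMod 7) = 0 := by
      rw [ZMod.intCast_zmod_eq_zero_iff_dvd, hk]
      exact ⟨p, by push_cast; ring⟩
    push_cast at h1
    have h2 := m7 _ _ h1
    rw [ZMod.intCast_zmod_eq_zero_iff_dvd] at h2
    obtain ⟨s, hs⟩ := h2
    rw [hs] at hk
    push_cast at hk
    exact ⟨b, s, by linarith⟩

end Pool.Agent.H61.Sun
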