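import Mathlib
set_option autoImplicit false
namespace Pool.Agent.H61.Sun

theorem zsign (i : ℤ) : ((-1 : ℚ) ^ i) = ((if Even i then 1 else -1 : ℤ) : ℚ) := by
  split_ifs with h
  · rw [h.neg_one_zpow]; norm_num
  · rw [(Int.not_even_iff_odd.mp h).neg_one_zpow]; norm_num

theorem leg_two {p : ℕ} [hp : Fact p.Prime] (hp2 : 2 < p) :
    legendreSym p 2 = if p % 8 = 1 ∨ p % 8 = 7 then 1 else -1 := by
  have hodd : p % 2 = 1 := by
    rcases hp.out.eq_two_or_odd with h | h <;> omega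
  rw [legendreSym.at_two (by omega), ZMod.χ₈_nat_eq_if_mod_eight, if_neg (by omega)]

theorem neg_one_pow_nat (n : ℕ) : ((-1 : ℤ)) ^ n = if Even n then 1 else -1 := by
  split_ifs with h
  · exact h.neg_one_pow
  · exact (Nat.not_even_iff_odd.mp h).neg_one_pow

/-- Signs for `x` odd, `y` even. -/
theorem signs_one {p : ℕ} [hp : Fact p.Prime] (hp2 : 2 < p) {i j : ℤ}
    (hxy : (p : ℤ) = (2 * i + 1) ^ 2 + 7 * (2 * j) ^ 2) {ν : ℕ} (hν : 4 * ν + 1 = p) :
    legendreSym p 2 = (if Even j then 1 else -1) ∧ (-1 : ℤ) ^ ν = (if Even j then 1 else -1) := by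
  obtain ⟨k, hk⟩ : ∃ k, i * (i + 1) = k + k := Int.even_mul_succ_self i
  rcases Int.even_or_odd j with hj | hj
  · obtain ⟨l, hl⟩ := hj
    have e : (p : ℤ) = 8 * (k + 14 * l ^ 2) + 1 := by
      rw [hxy, hl]; linear_combination 4 * hk
    have hev : Even j := ⟨l, hl⟩
    have h8 : p % 8 = 1 := by omega
    have hν2 : Even ν := by rw [Nat.even_iff]; omega
    rw [leg_two hp2, neg_one_pow_nat, if_pos (Or.inl h8), if_pos hev, if_pos hν2]
    exact ⟨rfl, rfl⟩
  · obtain ⟨l, hl⟩ := hj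
    have e : (p : ℤ) = 8 * (k + 14 * l ^ 2 + 14 * l) + 29 := by
      rw [hxy, hl]; linear_combination 4 * hk
    have hev : ¬ Even j := by rw [Int.not_even_iff_odd]; exact ⟨l, hl⟩
    have h8 : p % 8 = 5 := by omega
    have hν2 : ¬ Even ν := by rw [Nat.even_iff]; omega
    rw [leg_two hp2, neg_one_pow_nat, if_neg (by omega), if_neg hev, if_neg hν2]
    exact ⟨rfl, rfl⟩

/-- Signs for `x` even, `y` odd. -/
theorem signs_three {p : ℕ} [hp : Fact p.Prime] (hp2 : 2 < p) {i j : ℤ}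
    (hxy : (p : ℤ) = (2 * i) ^ 2 + 7 * (2 * j + 1) ^ 2) {ν : ℕ} (hν : 4 * ν + 1 = 3 * p) :
    legendreSym p 2 = (if Even i then 1 else -1) ∧ (-1 : ℤ) ^ ν = (if Even i then -1 else 1) := by
  obtain ⟨k, hk⟩ : ∃ k, j * (j + 1) = k + k := Int.even_mul_succ_self j
  rcases Int.even_or_odd i with hi | hi
  · obtain ⟨l, hl⟩ := hi
    have e : (p : ℤ) = 8 * (2 * l ^ 2 + 7 * k) + 7 := by
      rw [hxy, hl]; linear_combination 28 * hk
    have hev : Even i := ⟨l, hl⟩
    have h8 : p % 8 = 7 := by omega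
    have hν2 : ¬ Even ν := by rw [Nat.even_iff]; omega
    rw [leg_two hp2, neg_one_pow_nat, if_pos (Or.inr h8), if_pos hev, if_pos hev, if_neg hν2]
    exact ⟨rfl, rfl⟩
  · obtain ⟨l, hl⟩ := hi
    have e : (p : ℤ) = 8 * (2 * l ^ 2 + 2 * l + 7 * k) + 11 := by
      rw [hxy, hl]; linear_combination 28 * hk
    have hev : ¬ Even i := by rw [Int.not_even_iff_odd]; exact ⟨l, hl⟩
    have h8 : p % 8 = 3 := by omega
    have hν2 : Even ν := by rw [Nat.even_iff]; omega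
    rw [leg_two hp2, neg_one_pow_nat, if_neg (by omega), if_neg hev, if_neg hev, if_pos hν2]
    exact ⟨rfl, rfl⟩

end Pool.Agent.H61.Sun
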